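import Pool.Graph.R_seed8.Y120.Abs

/-!
# The abstract theorem on exceptional points of a parametrized curve

The proof is that of `Pool.Agent.Y120.abstract_false`; the uniformizing parameter `x` is now different from the first
coordinate `y none` of the points.
-/

set_option autoImplicit false

open Finset Filter

namespace Pool.Agent.H488.Z

open Pool.Agent.Y120

/-- the abstract theorem -/
theorem abstract_falseP {K : Type} [Field K] {w : AbsoluteValue K ℝ} (hw : IsNonarchimedean w)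
    {σ S : Type} [Fintype S] (E : Finset (σ →₀ ℕ))
    {ρ s : ℝ} (hρ0 : 0 < ρ) (hρ : ρ < 1) (hs0 : 0 < s) (hs1 : s ≤ 1)
    (y : Option σ → ℕ → K) (x : ℕ → K)
    (hx : ∀ k, w (x k) ≤ ρ) (hsep : ∀ k l, k ≠ l → s ≤ w (x k - x l))
    (a : (Option σ →₀ ℕ) → ℕ → K) (ha : ∀ j p, w (a j p) ≤ 1)
    (hf : ∀ j P k, w (mv (fun i => y i k) j - ∑ p ∈ range P, a j p * x k ^ p) ≤ ρ ^ P)
    (hND : ∀ 𝓜 : Finset (Option σ →₀ ℕ), ∃ N₀ : ℕ, ∀ g : (Option σ →₀ ℕ) → K, ∃ p ≤ N₀, ∀ j ∈ 𝓜,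
      w (g j) ≤ w (∑ j' ∈ 𝓜, g j' * a j' p))
    (κ : S → K) (c : ℕ → S × E → K) (Y : ℝ) (hY : 1 ≤ Y) (hcY : ∀ k i, w (c k i) ≤ Y)
    (hrel : ∀ k, ∑ e : E, (∑ s, κ s * c k (s, e)) * mv (fun i => y (some i) k) (e : σ →₀ ℕ) = 0)
    (hgood : ∀ k, ∃ e : E, ∑ s, κ s * c k (s, e) ≠ 0)
    (Γ : ℝ) (hΓ : 0 < Γ)
    (harith : ∀ (D δ N : ℕ) (pts : Fin N → ℕ) (m : Fin N → ℕ × (S × E → ℕ)), (∀ l, (m l).1 < D) →
      (∀ l, ∑ i, (m l).2 i = δ) →
      (Matrix.of fun a' l => y none (pts a') ^ (m l).1 * cm (c (pts a')) (m l).2).det ≠ 0 →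
      Γ ^ (N * (D + δ)) ≤ w (Matrix.of fun a' l => y none (pts a') ^ (m l).1 * cm (c (pts a')) (m l).2).det) :
    False := by
  classical
  set Ω := Filter.Germ (hyperfilter ℕ : Filter ℕ) K with hΩ
  let fΩ : Field Ω := Filter.Germ.instField
  set φ : (ℕ → K) →+* Ω := Filter.Germ.coeRingHom (hyperfilter ℕ : Filter ℕ) with hφ
  let aΩ : Algebra K Ω := (φ.comp (algebraMap K (ℕ → K))).toAlgebra
  set Φ : (ℕ → K) →ₐ[K] Ω := { φ with commutes' := fun r => rfl } with hΦ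
  have hΦeq : ∀ f g : ℕ → K, Φ f = Φ g → ∀ᶠ k in (hyperfilter ℕ : Filter ℕ), f k = g k := fun f g h =>
    Filter.Germ.coe_eq.1 h
  have hev : ∀ {ι : Type} (z : ι → ℕ → K) (G : MvPolynomial ι K),
      MvPolynomial.aeval (fun i => Φ (z i)) G = Φ (fun k => MvPolynomial.eval (fun i => z i k) G) := by
    intro ι z G
    rw [← MvPolynomial.comp_aeval_apply]
    congr 1
    funext k
    have h1 : (MvPolynomial.aeval z G) k = Pi.evalAlgHom K (fun _ : ℕ => K) k (MvPolynomial.aeval z G) := rfl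
    rw [h1, MvPolynomial.comp_aeval_apply]
    rfl
  -- Lemma Z
  have hZ : ∀ G : MvPolynomial (Option σ) K, G ≠ 0 → ∃ h : ℝ, 0 < h ∧
      {k | w (MvPolynomial.eval (fun i => y i k) G) < h}.Finite := by
    intro G hG
    obtain ⟨j₀, hj₀⟩ := MvPolynomial.support_nonempty.2 hG
    obtain ⟨N₀, hN₀⟩ := hND G.support
    obtain ⟨h, hh, hfin⟩ := combo_small hw hρ0 hρ hs0 hs1 x hx
      hsep (fun j k => mv (fun i => y i k) j) a ha
      hf G.support N₀ (fun j => G.coeff j) (hN₀ _) j₀ hj₀ (MvPolynomial.mem_support_iff.1 hj₀)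
    refine ⟨h, hh, ?_⟩
    simpa only [eval_mv] using hfin
  set ys : Option σ → Ω := fun i => Φ (y i) with hys
  have hZΩ : ∀ G : MvPolynomial (Option σ) K, MvPolynomial.aeval ys G = 0 → G = 0 := by
    intro G hG
    by_contra hne
    obtain ⟨h, hh, hfin⟩ := hZ G hne
    rw [hev] at hG
    rw [← map_zero Φ] at hG
    have h1 := hΦeq _ _ hG
    have h2 : ∀ᶠ k in (hyperfilter ℕ : Filter ℕ), ¬ w (MvPolynomial.eval (fun i => y i k) G) < h :=
      hfin.compl_mem_hyperfilter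
    obtain ⟨k, hk1, hk2⟩ := (h1.and h2).exists
    apply hk2
    rw [hk1]
    simpa using hh
  have hysind : AlgebraicIndependent K ys := by
    rw [algebraicIndependent_iff]
    exact hZΩ
  -- the relation
  set cs : S × E → Ω := fun i => Φ (fun k => c k i) with hcs
  set L : MvPolynomial σ Ω := ∑ e : E, MvPolynomial.monomial (e : σ →₀ ℕ) (∑ s, κ s • cs (s, e)) with hL
  have hLcoef : ∀ e : E, L.coeff (e : σ →₀ ℕ) = ∑ s, κ s • cs (s, e) := by
    intro e
    rw [hL, MvPolynomial.coeff_sum]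
    simp only [MvPolynomial.coeff_monomial]
    rw [Finset.sum_eq_single e]
    · simp
    · intro e' _ hne
      rw [if_neg]
      intro h
      exact hne (Subtype.ext h)
    · simp
  have hsumΦ : ∀ e : E, ∑ s, κ s • cs (s, e) = Φ (fun k => ∑ s, κ s * c k (s, e)) := by
    intro e
    have h1 : (fun k => ∑ s, κ s * c k (s, e)) = ∑ s, κ s • (fun k => c k (s, e)) := by
      funext k
      simp [Finset.sum_apply]
    rw [h1, map_sum]
    refine Finset.sum_congr rfl fun s _ => ?_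
    rw [map_smul]
  have hL0 : L ≠ 0 := by
    intro h0
    have h1 : ∀ e : E, ∀ᶠ k in (hyperfilter ℕ : Filter ℕ), ∑ s, κ s * c k (s, e) = 0 := by
      intro e
      have h2 := hLcoef e
      rw [h0, MvPolynomial.coeff_zero, hsumΦ e, ← map_zero Φ] at h2
      exact (hΦeq _ _ h2).mono fun k hk => hk.symm
    have h2 : ∀ᶠ k in (hyperfilter ℕ : Filter ℕ), ∀ e : E, ∑ s, κ s * c k (s, e) = 0 := by
      rw [Filter.eventually_all]
      exact h1
    obtain ⟨k, hk⟩ := h2.exists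
    obtain ⟨e, he⟩ := hgood k
    exact he (hk e)
  have hLu : MvPolynomial.eval (fun i => ys (some i)) L = 0 := by
    rw [hL, map_sum]
    have h1 : ∀ e : E, MvPolynomial.eval (fun i => ys (some i)) (MvPolynomial.monomial (e : σ →₀ ℕ)
        (∑ s, κ s • cs (s, e))) = Φ (fun k => (∑ s, κ s * c k (s, e)) *
          mv (fun i => y (some i) k) (e : σ →₀ ℕ)) := by
      intro e
      rw [MvPolynomial.eval_monomial, hsumΦ]
      have h2 : (fun k => (∑ s, κ s * c k (s, e)) * mv (fun i => y (some i) k) (e : σ →₀ ℕ)) =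
          (fun k => (∑ s, κ s * c k (s, e))) * ∏ i ∈ (e : σ →₀ ℕ).support, (y (some i)) ^ ((e : σ →₀ ℕ) i) := by
        funext k
        simp [mv, Finset.prod_apply]
      rw [h2, map_mul, map_prod]
      congr 1
    simp only [h1]
    rw [← map_sum]
    have h2 : (∑ e : E, fun k => (∑ s, κ s * c k (s, e)) * mv (fun i => y (some i) k) (e : σ →₀ ℕ)) = 0 := by
      funext k
      simp only [Finset.sum_apply, Pi.zero_apply]
      exact hrel k
    rw [h2, map_zero]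
  have hLc : ∀ e, L.coeff e ∈ Submodule.span K (Set.range cs) := by
    intro e
    rw [hL, MvPolynomial.coeff_sum]
    refine Submodule.sum_mem _ fun e' _ => ?_
    rw [MvPolynomial.coeff_monomial]
    split_ifs
    · exact Submodule.sum_mem _ fun s _ => Submodule.smul_mem _ _ (Submodule.subset_span ⟨_, rfl⟩)
    · exact Submodule.zero_mem _
  -- powers of ρ
  obtain ⟨K', hK'⟩ : ∃ K' : ℕ, ρ ^ K' < Γ := exists_pow_lt_of_lt_one hΓ hρ
  obtain ⟨δ, 𝒮, 𝒮₂, h𝒮, h𝒮₂, hcard, hpos, hli, q, hq, r, hr⟩ :=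
    star ys hysind cs L hL0 hLu hLc (2 * K' + 3)
  have hq0 : q ≠ 0 := by
    rintro rfl
    exact hq (map_zero _)
  obtain ⟨hq1, hq1pos, hqfin⟩ := hZ q hq0
  -- the good set
  have hcmΦ : ∀ μ : S × E → ℕ, cm cs μ = Φ (fun k => cm (c k) μ) := by
    intro μ
    have h1 : (fun k => cm (c k) μ) = ∏ i, (fun k => c k i) ^ μ i := by
      funext k
      simp [cm, Finset.prod_apply]
    rw [h1, map_prod]
    simp only [map_pow, cm, hcs]
  have hrel2 : ∀ᶠ k in (hyperfilter ℕ : Filter ℕ), ∀ μ ∈ 𝒮, MvPolynomial.eval (fun i => y i k) q * cm (c k) μ =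
      ∑ ν ∈ 𝒮₂, MvPolynomial.eval (fun i => y i k) (r μ ν) * cm (c k) ν := by
    rw [Filter.eventually_all_finset]
    intro μ hμ
    apply hΦeq
    have h1 := hr μ hμ
    have h2 : (fun k => MvPolynomial.eval (fun i => y i k) q * cm (c k) μ) =
        (fun k => MvPolynomial.eval (fun i => y i k) q) * (fun k => cm (c k) μ) := rfl
    have h3 : (fun k => ∑ ν ∈ 𝒮₂, MvPolynomial.eval (fun i => y i k) (r μ ν) * cm (c k) ν) =
        ∑ ν ∈ 𝒮₂, (fun k => MvPolynomial.eval (fun i => y i k) (r μ ν)) * (fun k => cm (c k) ν) := by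
      funext k
      simp [Finset.sum_apply]
    rw [h2, h3, map_mul, map_sum]
    simp only [map_mul, ← hev, ← hcmΦ]
    exact h1
  have hAmem : ∀ᶠ k in (hyperfilter ℕ : Filter ℕ), hq1 ≤ w (MvPolynomial.eval (fun i => y i k) q) ∧
      ∀ μ ∈ 𝒮, MvPolynomial.eval (fun i => y i k) q * cm (c k) μ =
        ∑ ν ∈ 𝒮₂, MvPolynomial.eval (fun i => y i k) (r μ ν) * cm (c k) ν := by
    have h2 : ∀ᶠ k in (hyperfilter ℕ : Filter ℕ), ¬ w (MvPolynomial.eval (fun i => y i k) q) < hq1 :=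
      hqfin.compl_mem_hyperfilter
    filter_upwards [h2, hrel2] with k hk1 hk2
    exact ⟨not_lt.1 hk1, hk2⟩
  set A : Set ℕ := {k | hq1 ≤ w (MvPolynomial.eval (fun i => y i k) q) ∧
      ∀ μ ∈ 𝒮, MvPolynomial.eval (fun i => y i k) q * cm (c k) μ =
        ∑ ν ∈ 𝒮₂, MvPolynomial.eval (fun i => y i k) (r μ ν) * cm (c k) ν} with hA
  -- constants
  choose Mr hMr0 hMr using fun μ ν : S × E → ℕ => coeff_bound (w := w) (r μ ν)
  set Φ' : ℝ := 1 + ∑ μ ∈ 𝒮, ∑ ν ∈ 𝒮₂, Mr μ ν with hΦ'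
  have hMrΦ : ∀ μ ∈ 𝒮, ∀ ν ∈ 𝒮₂, Mr μ ν ≤ Φ' := by
    intro μ hμ ν hν
    have h1 : Mr μ ν ≤ ∑ ν ∈ 𝒮₂, Mr μ ν := Finset.single_le_sum (fun ν _ => hMr0 μ ν) hν
    have h2 : ∑ ν ∈ 𝒮₂, Mr μ ν ≤ ∑ μ ∈ 𝒮, ∑ ν ∈ 𝒮₂, Mr μ ν :=
      Finset.single_le_sum (f := fun μ => ∑ ν ∈ 𝒮₂, Mr μ ν) (fun μ _ => Finset.sum_nonneg fun ν _ => hMr0 μ ν) hμ
    linarith
  have hΦ'0 : 0 < Φ' := by
    have : 0 ≤ ∑ μ ∈ 𝒮, ∑ ν ∈ 𝒮₂, Mr μ ν := Finset.sum_nonneg fun μ _ => Finset.sum_nonneg fun ν _ => hMr0 μ ν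
    linarith
  obtain ⟨k1, hk1⟩ : ∃ k1 : ℕ, ρ ^ k1 < hq1 := exists_pow_lt_of_lt_one hq1pos hρ
  obtain ⟨k2, hk2⟩ : ∃ k2 : ℕ, ρ ^ k2 < (Y ^ (δ + 1) * Φ')⁻¹ := exists_pow_lt_of_lt_one (by positivity) hρ
  set cst : ℕ := K' * (δ + 1) + k1 + k2 with hcst
  set D : ℕ := cst + 1 with hD
  set N : ℕ := D * 𝒮.card with hN
  have h𝒮pos : 0 < 𝒮.card := lt_of_lt_of_le (by positivity) hcard
  have hNpos : 0 < N := by positivity
  set Sx : ℕ := N * (K' * D + cst) + 1 with hSx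
  -- enumeration of the monomials
  have hcardN : Fintype.card (Fin D × 𝒮) = N := by
    rw [Fintype.card_prod, Fintype.card_fin, Fintype.card_coe]
  set en : Fin N ≃ Fin D × 𝒮 := (Fintype.equivFinOfCardEq hcardN).symm with hen
  set f : Fin N → ℕ → K := fun l k => y none k ^ ((en l).1 : ℕ) * cm (c k) ((en l).2 : S × E → ℕ) with hfdef
  obtain ⟨pts, hpts, hdet⟩ := exists_points (K := K) A f (by
    intro l hl
    have h1 : ∀ᶠ k in (hyperfilter ℕ : Filter ℕ), ∑ i, l i * f i k = 0 := hAmem.mono fun k hk => hl k hk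
    have h2 : ∑ i, l i • (ys none ^ ((en i).1 : ℕ) * cm cs ((en i).2 : S × E → ℕ)) = 0 := by
      have h3 : ∀ i, ys none ^ ((en i).1 : ℕ) * cm cs ((en i).2 : S × E → ℕ) = Φ (f i) := by
        intro i
        have h4 : f i = (y none) ^ ((en i).1 : ℕ) * (fun k => cm (c k) ((en i).2 : S × E → ℕ)) := rfl
        rw [h4, map_mul, map_pow, hcmΦ]
      simp only [h3]
      have h5 : ∑ i, l i • Φ (f i) = Φ (∑ i, l i • f i) := by
        rw [map_sum]
        refine Finset.sum_congr rfl fun i _ => ?_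
        rw [map_smul]
      rw [h5, ← map_zero Φ]
      refine Filter.Germ.coe_eq.2 ?_
      filter_upwards [h1] with k hk
      simp only [Finset.sum_apply, Pi.smul_apply, smul_eq_mul, Pi.zero_apply]
      exact hk
    have h3 := (Fintype.linearIndependent_iff.1 ((hli D).comp en en.injective)) l h2
    funext i
    exact h3 i)
  set Δ := (Matrix.of fun a' l => f l (pts a')).det with hΔ
  have hlow : Γ ^ (N * (D + (δ + 1))) ≤ w Δ :=
    harith D (δ + 1) N pts (fun l => (((en l).1 : ℕ), ((en l).2 : S × E → ℕ))) (fun l => (en l).1.2)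
      (fun l => h𝒮 _ (en l).2.2) hdet
  -- the upper bound
  set qa : Fin N → K := fun a' => MvPolynomial.eval (fun i => y i (pts a')) q with hqa
  set G : Fin N → 𝒮₂ → MvPolynomial (Option σ) K := fun l ν =>
    MvPolynomial.monomial (Finsupp.single none ((en l).1 : ℕ)) 1 * r ((en l).2 : S × E → ℕ) ν with hG
  have hGM : ∀ l ν j, w ((G l ν).coeff j) ≤ Φ' := by
    intro l ν j
    rw [hG]
    simp only
    rw [MvPolynomial.coeff_monomial_mul']
    split_ifs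
    · rw [one_mul]
      exact (hMr _ _ _).trans (hMrΦ _ (en l).2.2 _ ν.2)
    · simpa using hΦ'0.le
  have hGeval : ∀ l (ν : 𝒮₂) k, MvPolynomial.eval (fun i => y i k) (G l ν) =
      y none k ^ ((en l).1 : ℕ) * MvPolynomial.eval (fun i => y i k) (r ((en l).2 : S × E → ℕ) ν) := by
    intro l ν k
    rw [hG]
    simp only
    rw [map_mul, MvPolynomial.eval_monomial]
    simp
  set err : Fin N → Fin N → K := fun a' l => ∑ ν : 𝒮₂, cm (c (pts a')) (ν : S × E → ℕ) *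
    (MvPolynomial.eval (fun i => y i (pts a')) (G l ν) -
      ∑ p ∈ range Sx, tc a (G l ν) p * x (pts a') ^ p) with herr
  have hcmY : ∀ k (ν : 𝒮₂), w (cm (c k) (ν : S × E → ℕ)) ≤ Y ^ (δ + 1) := by
    intro k ν
    rw [cm, map_prod]
    calc ∏ i, w (c k i ^ (ν : S × E → ℕ) i) ≤ ∏ i, Y ^ (ν : S × E → ℕ) i := by
          refine Finset.prod_le_prod (fun _ _ => w.nonneg _) fun i _ => ?_
          rw [map_pow]
          exact pow_le_pow_left₀ (w.nonneg _) (hcY k i) _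
      _ = Y ^ (δ + 1) := by rw [Finset.prod_pow_eq_pow_sum, h𝒮₂ _ ν.2]
  have hrow : ∀ a' l, qa a' * f l (pts a') =
      (∑ ν : 𝒮₂, ∑ p ∈ range Sx, cm (c (pts a')) (ν : S × E → ℕ) * x (pts a') ^ p * tc a (G l ν) p) +
        err a' l := by
    intro a' l
    have h1 := (hpts a').2 _ (en l).2.2
    have h2 : qa a' * f l (pts a') = y none (pts a') ^ ((en l).1 : ℕ) *
        (MvPolynomial.eval (fun i => y i (pts a')) q * cm (c (pts a')) ((en l).2 : S × E → ℕ)) := by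
      rw [hqa, hfdef]
      ring
    rw [h2, h1, herr, ← Finset.sum_coe_sort 𝒮₂, Finset.mul_sum]
    simp only
    rw [← Finset.sum_add_distrib]
    refine Finset.sum_congr rfl fun ν _ => ?_
    rw [mul_sub, hGeval, Finset.mul_sum]
    have h3 : ∀ p, cm (c (pts a')) (ν : S × E → ℕ) * x (pts a') ^ p * tc a (G l ν) p =
        cm (c (pts a')) (ν : S × E → ℕ) * (tc a (G l ν) p * x (pts a') ^ p) := fun p => by ring
    simp only [h3]
    ring
  have hdetq : (∏ a', qa a') * Δ = (Matrix.of fun a' l => (∑ ν : 𝒮₂, ∑ p ∈ range Sx,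
      cm (c (pts a')) (ν : S × E → ℕ) * x (pts a') ^ p * tc a (G l ν) p) + err a' l).det := by
    rw [hΔ, ← Matrix.det_mul_column]
    congr 1
    ext a' l
    simp only [Matrix.of_apply]
    exact hrow a' l
  have hh : 0 < Fintype.card 𝒮₂ := by rw [Fintype.card_coe]; exact hpos
  have hup := det_bound hw hρ0 hρ (N := N) (J := 𝒮₂) Sx (fun a' ν => cm (c (pts a')) (ν : S × E → ℕ))
    (fun a' => x (pts a')) (fun l ν p => tc a (G l ν) p) err (Y ^ (δ + 1)) Φ' (by positivity) hΦ'0.le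
    (fun a' ν => hcmY _ ν) (fun a' => hx _) (fun l ν p => tc_le hw a ha _ _ hΦ'0.le (hGM l ν) p)
    (fun a' l => by
      rw [herr]
      refine w_sum_le hw _ _ _ (by positivity) fun ν _ => ?_
      rw [map_mul, mul_assoc]
      exact mul_le_mul (hcmY _ ν) (tc_approx hw hρ0 a y x hf _ _ hΦ'0.le (hGM l ν) _ _)
        (w.nonneg _) (by positivity))
    (by
      rw [Fintype.card_coe]
      exact num_aux K' cst _ _ N D hcard hN hD hNpos)
    hh
  rw [← hdetq, map_mul, map_prod] at hup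
  have hq2 : ρ ^ (k1 * N) ≤ ∏ a', w (qa a') := by
    calc ρ ^ (k1 * N) = ∏ _a' : Fin N, ρ ^ k1 := by
          rw [Finset.prod_const, Finset.card_univ, Fintype.card_fin, ← pow_mul]
      _ ≤ ∏ a', w (qa a') := Finset.prod_le_prod (fun _ _ => by positivity) fun a' _ =>
          hk1.le.trans (hpts a').1
  have hlow2 : ρ ^ (K' * (N * (D + (δ + 1)))) ≤ w Δ := by
    refine le_trans ?_ hlow
    rw [pow_mul]
    exact pow_le_pow_left₀ (by positivity) hK'.le _
  have hYΦ : (Y ^ (δ + 1) * Φ') ^ N * ρ ^ (k2 * N) ≤ 1 := by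
    rw [pow_mul ρ k2 N, ← mul_pow]
    refine pow_le_one₀ (by positivity) ?_
    have h1 : 0 < Y ^ (δ + 1) * Φ' := by positivity
    calc Y ^ (δ + 1) * Φ' * ρ ^ k2 ≤ Y ^ (δ + 1) * Φ' * (Y ^ (δ + 1) * Φ')⁻¹ :=
          mul_le_mul_of_nonneg_left hk2.le h1.le
      _ = 1 := mul_inv_cancel₀ h1.ne'
  have hfinal : ρ ^ (k1 * N) * ρ ^ (K' * (N * (D + (δ + 1)))) * ρ ^ (k2 * N) ≤ ρ ^ Sx := by
    calc ρ ^ (k1 * N) * ρ ^ (K' * (N * (D + (δ + 1)))) * ρ ^ (k2 * N)
        ≤ ((∏ a', w (qa a')) * w Δ) * ρ ^ (k2 * N) := by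
          refine mul_le_mul_of_nonneg_right (mul_le_mul hq2 hlow2 (by positivity)
            (Finset.prod_nonneg fun _ _ => w.nonneg _)) (by positivity)
      _ ≤ ((Y ^ (δ + 1) * Φ') ^ N * ρ ^ Sx) * ρ ^ (k2 * N) := mul_le_mul_of_nonneg_right hup (by positivity)
      _ = ((Y ^ (δ + 1) * Φ') ^ N * ρ ^ (k2 * N)) * ρ ^ Sx := by ring
      _ ≤ 1 * ρ ^ Sx := mul_le_mul_of_nonneg_right hYΦ (by positivity)
      _ = ρ ^ Sx := one_mul _
  rw [← pow_add, ← pow_add] at hfinal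
  have hexp : k1 * N + K' * (N * (D + (δ + 1))) + k2 * N < Sx := by
    have : Sx = k1 * N + K' * (N * (D + (δ + 1))) + k2 * N + 1 := by
      rw [hSx, hcst]
      ring
    omega
  have := pow_lt_pow_right_of_lt_one₀ hρ0 hρ hexp
  linarith

end Pool.Agent.H488.Z
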