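import Pool.Agent.H488.Z.Loc
import Pool.Graph.R_seed8.R349.LocalMulti

/-!
# Parametrized curves which are analytic on a compact set: a bounded number of exceptional points in small discs
-/

set_option autoImplicit false

open Filter Topology

namespace Pool.Agent.H488.Z

open Pool.Agent.Y120 (mv NormRing Pt ExcN EE0 encE encE_val mv_enc)
open Pool.Agent.Y124 (tc tc_indep tc_continuousAt taylor_compact exists_radius closedBall_sub RelR flagC flagR)

variable {σ : Type}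

/-- the monomial functions -/
noncomputable def WmP (f : Option σ → ℂ → ℂ) (j : Option σ →₀ ℕ) (t : ℂ) : ℂ := mv (fun o => f o t) j

theorem WmP_an (f : Option σ → ℂ → ℂ) {t : ℂ} (han : ∀ i, AnalyticAt ℂ (f i) t) (j : Option σ →₀ ℕ) :
    AnalyticAt ℂ (WmP f j) t := by
  have h1 : WmP f j = fun t => ∏ i ∈ j.support, f i t ^ j i := by
    funext t
    rfl
  rw [h1]
  exact Finset.analyticAt_fun_prod _ fun i _ => (han i).pow _

/-- the coordinates of the curve are algebraically independent near a point -/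
def LocP (f : Option σ → ℂ → ℂ) (t0 : ℂ) : Prop :=
  ∀ P : MvPolynomial (Option σ) ℂ, (∀ᶠ t in 𝓝 t0, MvPolynomial.eval (fun o => f o t) P = 0) → P = 0

/-- the Taylor coefficients of the monomials are linearly independent -/
theorem WmP_indep (f : Option σ → ℂ → ℂ) (t0 : ℂ) (han : ∀ i, AnalyticAt ℂ (f i) t0) (hind : LocP f t0)
    (𝓜 : Finset (Option σ →₀ ℕ)) (g : (Option σ →₀ ℕ) → ℂ) (h : ∀ p, ∑ j ∈ 𝓜, g j * tc (WmP f j) t0 p = 0) :
    ∀ j ∈ 𝓜, g j = 0 := by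
  classical
  have h1 : LinearIndependent ℂ (fun (j : Option σ →₀ ℕ) η => tc (WmP f j) t0 η) := by
    apply tc_indep _ _ (fun j => WmP_an f han j)
    intro S c h2
    have h3 := hind (∑ i ∈ S, MvPolynomial.monomial i (c i)) (by
      filter_upwards [h2] with t ht
      rw [map_sum]
      refine Eq.trans (Finset.sum_congr rfl fun i _ => ?_) ht
      rw [MvPolynomial.eval_monomial]
      rfl)
    intro i hi
    have h4 := congrArg (MvPolynomial.coeff i) h3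
    rw [MvPolynomial.coeff_sum, MvPolynomial.coeff_zero] at h4
    simp only [MvPolynomial.coeff_monomial] at h4
    rw [Finset.sum_ite_eq' S i, if_pos hi] at h4
    exact h4
  rw [linearIndependent_iff'] at h1
  intro j hj
  refine h1 𝓜 g ?_ j hj
  funext p
  have h3 := h p
  simp only [Finset.sum_apply, Pi.smul_apply, smul_eq_mul, Pi.zero_apply]
  exact h3

variable [Fintype σ]

/-- uniform nondegeneracy -/
theorem nd_compactP (f : Option σ → ℂ → ℂ) {K : Set ℂ} (hK : IsCompact K) (han : ∀ i, ∀ t ∈ K, AnalyticAt ℂ (f i) t)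
    (hind : ∀ t ∈ K, LocP f t) (𝓜 : Finset (Option σ →₀ ℕ)) :
    ∃ N₀ : ℕ, ∃ c₀ : ℝ, 0 < c₀ ∧ ∀ θ ∈ K, ∀ g : (Option σ →₀ ℕ) → ℂ,
      ∃ p ≤ N₀, ∀ j ∈ 𝓜, c₀ * ‖g j‖ ≤ ‖∑ j' ∈ 𝓜, g j' * tc (WmP f j') θ p‖ := by
  classical
  by_contra hcon
  push Not at hcon
  have h1 : ∀ n : ℕ, ∃ θ ∈ K, ∃ x : 𝓜 → ℂ, ‖x‖ = 1 ∧ ∀ p ≤ n,
      ‖∑ j' : 𝓜, x j' * tc (WmP f j') θ p‖ ≤ ((n : ℝ) + 1)⁻¹ := by
    intro n
    obtain ⟨θ, hθ, g, hg⟩ := hcon n (((n : ℝ) + 1)⁻¹) (by positivity)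
    set y : 𝓜 → ℂ := fun j => g j with hy
    have hy0 : 0 < ‖y‖ := by
      rw [norm_pos_iff]
      intro h0
      obtain ⟨j, hj, hlt⟩ := hg 0 (Nat.zero_le _)
      have : g j = 0 := congrFun h0 ⟨j, hj⟩
      rw [this, norm_zero, mul_zero] at hlt
      exact absurd hlt (not_lt.2 (norm_nonneg _))
    refine ⟨θ, hθ, (‖y‖⁻¹ : ℝ) • y, ?_, ?_⟩
    · rw [norm_smul, Real.norm_eq_abs, abs_of_pos (inv_pos.2 hy0), inv_mul_cancel₀ hy0.ne']
    · intro p hp
      obtain ⟨j, hj, hlt⟩ := hg p hp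
      have h2 : ∑ j' : 𝓜, ((‖y‖⁻¹ : ℝ) • y) j' * tc (WmP f j') θ p =
          ((‖y‖⁻¹ : ℝ) : ℂ) * ∑ j' ∈ 𝓜, g j' * tc (WmP f j') θ p := by
        rw [← Finset.sum_coe_sort 𝓜 (fun j' => g j' * tc (WmP f j') θ p), Finset.mul_sum]
        refine Finset.sum_congr rfl fun j' _ => ?_
        simp only [Pi.smul_apply, Complex.real_smul, hy]
        ring
      rw [h2, norm_mul, Complex.norm_real, Real.norm_eq_abs, abs_of_pos (inv_pos.2 hy0)]
      have h3 : ‖g j‖ ≤ ‖y‖ := norm_le_pi_norm y ⟨j, hj⟩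
      calc ‖y‖⁻¹ * ‖∑ j' ∈ 𝓜, g j' * tc (WmP f j') θ p‖ ≤ ‖y‖⁻¹ * (((n : ℝ) + 1)⁻¹ * ‖y‖) := by
            refine mul_le_mul_of_nonneg_left (hlt.le.trans ?_) (inv_pos.2 hy0).le
            exact mul_le_mul_of_nonneg_left h3 (by positivity)
        _ = ((n : ℝ) + 1)⁻¹ := by field_simp
  choose θ hθ x hx1 hxp using h1
  have hcomp : IsCompact (K ×ˢ Metric.sphere (0 : 𝓜 → ℂ) 1) := hK.prod (isCompact_sphere _ _)
  obtain ⟨⟨θs, xs⟩, hmem, φ, hφ, hlim⟩ := hcomp.tendsto_subseq (x := fun n => (θ n, x n))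
    (fun n => ⟨hθ n, by rw [mem_sphere_zero_iff_norm]; exact hx1 n⟩)
  have hθs : θs ∈ K := hmem.1
  have hxs : ‖xs‖ = 1 := by simpa using hmem.2
  have hl1 : Tendsto (fun n => θ (φ n)) atTop (𝓝 θs) := (continuous_fst.tendsto _).comp hlim
  have hl2 : Tendsto (fun n => x (φ n)) atTop (𝓝 xs) := (continuous_snd.tendsto _).comp hlim
  have hzero : ∀ p, ∑ j' : 𝓜, xs j' * tc (WmP f j') θs p = 0 := by
    intro p
    have h4 : Tendsto (fun n => ∑ j' : 𝓜, x (φ n) j' * tc (WmP f j') (θ (φ n)) p) atTop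
        (𝓝 (∑ j' : 𝓜, xs j' * tc (WmP f j') θs p)) := by
      refine tendsto_finsetSum _ fun j' _ => ?_
      refine Tendsto.mul ((continuous_apply j').continuousAt.tendsto.comp hl2) ?_
      exact (tc_continuousAt (WmP_an f (fun i => han i θs hθs) j') p).tendsto.comp hl1
    have h5 : Tendsto (fun n => ∑ j' : 𝓜, x (φ n) j' * tc (WmP f j') (θ (φ n)) p) atTop (𝓝 0) := by
      rw [tendsto_zero_iff_norm_tendsto_zero]
      have h6 : Tendsto (fun n : ℕ => (((φ n : ℕ) : ℝ) + 1)⁻¹) atTop (𝓝 0) := by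
        have h7 : Tendsto (fun n : ℕ => ((n : ℝ) + 1)⁻¹) atTop (𝓝 0) :=
          (tendsto_natCast_atTop_atTop.atTop_add tendsto_const_nhds).inv_tendsto_atTop
        exact h7.comp hφ.tendsto_atTop
      refine squeeze_zero' (Eventually.of_forall fun n => norm_nonneg _) ?_ h6
      filter_upwards [eventually_ge_atTop p] with n hn
      exact hxp (φ n) p (hn.trans (hφ.id_le n))
    exact tendsto_nhds_unique h4 h5
  have h8 := WmP_indep f θs (fun i => han i θs hθs) (hind θs hθs) 𝓜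
    (fun j => if h : j ∈ 𝓜 then xs ⟨j, h⟩ else 0) (by
      intro p
      refine Eq.trans ?_ (hzero p)
      rw [← Finset.sum_coe_sort 𝓜 (fun j => (if h : j ∈ 𝓜 then xs ⟨j, h⟩ else 0) * tc (WmP f j) θs p)]
      refine Finset.sum_congr rfl fun j _ => ?_
      rw [dif_pos j.2])
  have h9 : xs = 0 := by
    funext j
    have := h8 j j.2
    rwa [dif_pos j.2] at this
  rw [h9, norm_zero] at hxs
  exact zero_ne_one hxs


/-- Lipschitz bound, uniformly on a compact set -/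
theorem lip_compact {W : ℂ → ℂ} {K : Set ℂ} (hK : IsCompact K) {δ : ℝ} (hδ : 0 < δ)
    (hW : ∀ t ∈ Metric.cthickening δ K, AnalyticAt ℂ W t) :
    ∃ C : ℝ, 0 < C ∧ ∀ θ ∈ K, ∀ t ∈ Metric.closedBall θ (δ / 2), ∀ t' ∈ Metric.closedBall θ (δ / 2),
      ‖W t - W t'‖ ≤ C * ‖t - t'‖ := by
  obtain ⟨M, hM⟩ := (hK.cthickening (r := δ)).exists_bound_of_continuousOn
    (f := deriv W) (fun t ht => (hW t ht).deriv.continuousAt.continuousWithinAt)
  refine ⟨max M 1, lt_max_of_lt_right one_pos, fun θ hθ t ht t' ht' => ?_⟩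
  have hsub : ∀ z ∈ Metric.closedBall θ (δ / 2), z ∈ Metric.cthickening δ K := fun z hz =>
    closedBall_sub hθ (Metric.closedBall_subset_closedBall (by linarith) hz)
  exact Convex.norm_image_sub_le_of_norm_deriv_le (fun z hz => (hW z (hsub z hz)).differentiableAt)
    (fun z hz => (hM z (hsub z hz)).trans (le_max_left _ _)) (convex_closedBall θ (δ / 2)) ht' ht

/-- the charts of a curve which is analytic and independent on a compact set -/
noncomputable def chartsP (f : Option σ → ℂ → ℂ) (K : Set ℂ) (hK : IsCompact K) (han : ∀ i, ∀ t ∈ K, AnalyticAt ℂ (f i) t)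
    (hind : ∀ t ∈ K, LocP f t) (δ : ℝ) (hδ : 0 < δ)
    (hδ' : ∀ t ∈ Metric.cthickening δ K, ∀ i, AnalyticAt ℂ (f i) t) : ChartsP σ where
  Θ := K
  τ θ := θ
  dom θ := Metric.closedBall (θ : ℂ) (δ / 2)
  y _ i t := f i t
  a θ j p := tc (WmP f j) θ p
  ab := by
    intro j p
    obtain ⟨M, -, h, -⟩ := taylor_compact hK hδ (fun t ht => WmP_an f (hδ' t ht) j)
    exact ⟨M * (δ⁻¹) ^ p, fun θ => h θ θ.2 p⟩
  approx := by
    intro j P
    obtain ⟨M, -, -, h⟩ := taylor_compact hK hδ (fun t ht => WmP_an f (hδ' t ht) j)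
    exact ⟨2 * M * (δ⁻¹) ^ P, fun θ t ht => h θ θ.2 t ht P⟩
  lip := by
    obtain ⟨C, hC0, hC⟩ := lip_compact hK hδ (fun t ht => hδ' t ht none)
    exact ⟨C, hC0, fun θ t ht t' ht' => hC θ θ.2 t ht t' ht'⟩
  nd := by
    intro 𝓜
    obtain ⟨N₀, c₀, hc₀, h⟩ := nd_compactP f hK han hind 𝓜
    exact ⟨N₀, c₀, hc₀, fun θ g => h θ θ.2 g⟩

/-- a bounded number of exceptional points in all balls of radius `T ^ (-η)` around points of a compact set -/
theorem ballsP (g : ℕ) {σ : Type} [Fintype σ] [DecidableEq σ] (f : Option σ → ℂ → ℂ) (K : Set ℂ) (hK : IsCompact K)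
    (han : ∀ i, ∀ t ∈ K, AnalyticAt ℂ (f i) t) (hind : ∀ t ∈ K, LocP f t) (h : Type) [Fintype h] [DecidableEq h]
    (d : ℕ) (A η : ℝ) (hη : 0 < η) :
    ∃ (B : ℝ) (C : ℕ) (T2 : ℝ), 2 ≤ T2 ∧ ∀ T : ℝ, T2 ≤ T → ∀ R : Subring (Fin (g + 1) → ℂ), NormRing R → ∀ ξ : h → ℂ,
      ∀ τ ∈ K, ∀ Y : Finset ℂ, (∀ t ∈ Y, ∀ t' ∈ Y, f none t = f none t' → t = t') →
        (∀ t ∈ Y, ‖t - τ‖ ≤ T ^ (-η) ∧ Pt R T (f none t) ∧
        RelR R ξ (fun l : σ → Fin (d + 1) => ∏ i, f (some i) t ^ (l i : ℕ)) (T ^ A) (T ^ (-B))) →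
      Y.card ≤ C := by
  classical
  obtain ⟨δ, hδ, hδ'⟩ := exists_radius f hK han
  set Ch := chartsP f K hK han hind δ hδ hδ' with hCh
  set A₀ : ℕ := ⌈A⌉₊ with hA₀
  set fB : ℕ := flagC g (Fintype.card h) A₀ with hfB
  set B' : ℕ := fB + 1 with hB'
  obtain ⟨B₂, C₂, T₀, hT₀2, hloc⟩ := local_thmP (g := g) (σ := σ) (S := h) Ch (EE0 σ d) η hη A₀ B'
  set nh : ℝ := (Fintype.card h : ℝ) with hnh
  have hnh0 : 0 ≤ nh := by positivity
  refine ⟨B₂ + A₀ + 1, Fintype.card h * C₂, max (max T₀ ((2 / δ) ^ (1 / η))) (max nh 2),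
    le_max_of_le_right (le_max_right _ _), ?_⟩
  intro T hT R hR ξ τ hτ Y hYinj hY
  have hTT₀ : T₀ ≤ T := (le_max_left _ _).trans ((le_max_left _ _).trans hT)
  have hTδ : (2 / δ) ^ (1 / η) ≤ T := (le_max_right _ _).trans ((le_max_left _ _).trans hT)
  have hTh : nh ≤ T := (le_max_left _ _).trans ((le_max_right _ _).trans hT)
  have hT2 : 2 ≤ T := (le_max_right _ _).trans ((le_max_right _ _).trans hT)
  have hT1 : 1 ≤ T := by linarith
  have hTp : 0 < T := by linarith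
  obtain ⟨𝒦, h𝒦card, h𝒦1, h𝒦⟩ := flagR hR A₀ hT2 ξ
  set B : ℝ := B₂ + A₀ + 1 with hB
  have hr : T ^ (-η) ≤ δ / 2 := by
    have h1 : 0 < 2 / δ := by positivity
    have h2 : 2 / δ ≤ T ^ η := by
      calc 2 / δ = ((2 / δ) ^ (1 / η)) ^ η := by
            rw [← Real.rpow_mul h1.le]
            have : 1 / η * η = 1 := by field_simp
            rw [this, Real.rpow_one]
        _ ≤ T ^ η := Real.rpow_le_rpow (by positivity) hTδ (by positivity)
    rw [Real.rpow_neg hTp.le, inv_le_comm₀ (Real.rpow_pos_of_pos hTp _) (by positivity)]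
    rwa [inv_div]
  -- the relation for one of the systems
  set P : (h → ℂ) → ℂ → Prop := fun K' t => ExcN R T A₀ B₂ B' K' (EE0 σ d) (fun i => f (some i) t) with hP
  have hcov : ∀ q ∈ Y, ∃ K' ∈ 𝒦, P K' q := by
    intro q hq
    obtain ⟨-, -, c, hcR, hcA, l₀, hl₀, hcs⟩ := hY q hq
    have hcA' : ∀ e s i, ‖c e s i‖ ≤ T ^ A₀ := fun e s i => (hcA e s i).trans (by
      calc T ^ A ≤ T ^ (A₀ : ℝ) := Real.rpow_le_rpow_of_exponent_le hT1 (Nat.le_ceil _)
        _ = T ^ A₀ := Real.rpow_natCast _ _)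
    obtain ⟨K', hK', l, hl, hKc, l₁, hl₁⟩ := h𝒦 _ c hcR hcA' ⟨l₀, hl₀⟩
    refine ⟨K', hK', ?_⟩
    refine ⟨fun x => c ((encE σ d).symm x.2) x.1, fun x => hcR _ _, ⟨encE σ d l₁, ?_⟩, ?_, ?_⟩
    · simp only [Equiv.symm_apply_apply]
      refine lt_of_lt_of_le ?_ hl₁
      refine inv_strictAnti₀ (pow_pos hTp _) ?_
      exact pow_lt_pow_right₀ (by linarith) (Nat.lt_succ_self _)
    · intro x j
      exact hcA' _ _ _
    · have h2 : ∑ e : EE0 σ d, (∑ s, K' s * c ((encE σ d).symm e) s 0) *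
          mv (fun i => f (some i) q) (e : σ →₀ ℕ) =
          ∑ l, (∑ s, K' s * c l s 0) * ∏ i, f (some i) q ^ (l i : ℕ) := by
        rw [← Equiv.sum_comp (encE σ d)]
        refine Finset.sum_congr rfl fun e _ => ?_
        rw [encE_val, mv_enc, Equiv.symm_apply_apply]
      have h3 : l * ∑ l', (∑ s, K' s * c l' s 0) * ∏ i, f (some i) q ^ (l' i : ℕ) =
          ∑ l', (∑ s, ξ s * c l' s 0) * ∏ i, f (some i) q ^ (l' i : ℕ) := by
        rw [Finset.mul_sum]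
        refine Finset.sum_congr rfl fun l' _ => ?_
        rw [hKc l', mul_assoc]
      have hlpos : 0 < ‖l‖ := norm_pos_iff.2 hl
      have h4 : ‖∑ l', (∑ s, K' s * c l' s 0) * ∏ i, f (some i) q ^ (l' i : ℕ)‖ ≤
          T ^ (-B) * ‖∑ s, K' s * c l₀ s 0‖ := by
        have h5 := hcs
        rw [← h3, hKc l₀, norm_mul, norm_mul] at h5
        have h6 : ‖l‖ * ‖∑ l', (∑ s, K' s * c l' s 0) * ∏ i, f (some i) q ^ (l' i : ℕ)‖ ≤
            ‖l‖ * (T ^ (-B) * ‖∑ s, K' s * c l₀ s 0‖) := by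
          calc _ ≤ T ^ (-B) * (‖l‖ * ‖∑ s, K' s * c l₀ s 0‖) := h5
            _ = _ := by ring
        exact le_of_mul_le_mul_left h6 hlpos
      have h5 : ‖∑ s, K' s * c l₀ s 0‖ ≤ nh * T ^ A₀ := by
        calc ‖∑ s, K' s * c l₀ s 0‖ ≤ ∑ s, ‖K' s * c l₀ s 0‖ := norm_sum_le _ _
          _ ≤ ∑ s : h, T ^ A₀ := by
              refine Finset.sum_le_sum fun s _ => ?_
              rw [norm_mul]
              calc ‖K' s‖ * ‖c l₀ s 0‖ ≤ 1 * T ^ A₀ :=
                    mul_le_mul (h𝒦1 K' hK' s) (hcA' _ _ _) (norm_nonneg _) zero_le_one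
                _ = T ^ A₀ := one_mul _
          _ = nh * T ^ A₀ := by rw [Finset.sum_const, Finset.card_univ, nsmul_eq_mul]
      rw [h2]
      refine h4.trans ?_
      calc T ^ (-B) * ‖∑ s, K' s * c l₀ s 0‖ ≤ T ^ (-B) * (nh * T ^ A₀) :=
            mul_le_mul_of_nonneg_left h5 (Real.rpow_pos_of_pos hTp _).le
        _ ≤ T ^ (-B) * (T * T ^ A₀) := by
            refine mul_le_mul_of_nonneg_left ?_ (Real.rpow_pos_of_pos hTp _).le
            exact mul_le_mul_of_nonneg_right hTh (pow_nonneg hTp.le _)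
        _ = T ^ (-(B₂ : ℝ)) := by
            rw [← pow_succ', ← Real.rpow_natCast, ← Real.rpow_add hTp]
            congr 1
            rw [hB]
            push_cast
            ring
        _ = (T ^ B₂)⁻¹ := by rw [Real.rpow_neg hTp.le, Real.rpow_natCast]
  have hFsub : Y ⊆ 𝒦.biUnion fun K' => Y.filter fun q => P K' q := by
    intro q hq
    obtain ⟨K', hK', hKq⟩ := hcov q hq
    exact Finset.mem_biUnion.2 ⟨K', hK', Finset.mem_filter.2 ⟨hq, hKq⟩⟩
  have hcountK : ∀ K' ∈ 𝒦, (Y.filter fun q => P K' q).card ≤ C₂ := by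
    intro K' hK'
    refine hloc T hTT₀ R hR K' (fun s => (h𝒦1 K' hK' s).trans (one_le_pow₀ hT1)) ⟨τ, hτ⟩
      (Y.filter fun q => P K' q) (fun t ht t' ht' => hYinj t (Finset.mem_filter.1 ht).1 t'
        (Finset.mem_filter.1 ht').1) ?_
    intro t ht
    rw [Finset.mem_filter] at ht
    obtain ⟨htY, htP⟩ := ht
    have h1 := (hY t htY).1
    refine ⟨?_, h1, (hY t htY).2.1, htP⟩
    change t ∈ Metric.closedBall τ (δ / 2)
    rw [Metric.mem_closedBall, dist_eq_norm]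
    exact h1.trans hr
  calc Y.card ≤ (𝒦.biUnion fun K' => Y.filter fun q => P K' q).card := Finset.card_le_card hFsub
    _ ≤ ∑ K' ∈ 𝒦, (Y.filter fun q => P K' q).card := Finset.card_biUnion_le
    _ ≤ ∑ K' ∈ 𝒦, C₂ := Finset.sum_le_sum hcountK
    _ = 𝒦.card * C₂ := by rw [Finset.sum_const, smul_eq_mul]
    _ ≤ Fintype.card h * C₂ := Nat.mul_le_mul_right _ h𝒦card

end Pool.Agent.H488.Z
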