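import Pool.Agent.H488.Z.Zeta

/-!
# Levels `1 / q`: the number of exceptions up to `x` is `O(log log x)`
-/

set_option autoImplicit false

open Filter Topology NumberField

namespace Pool.Agent.H488.Z

open Pool.Agent.R349.Gen (AdmG)

/-- the levels `1 / q` with a near relation, with coefficients in `ℤ[y]` -/
def BadInv {n : ℕ} {σ : ℂ → Type} (v : ∀ a, σ a → ℂ) (y : Fin n → ℂ) (d : ℕ) (A B : ℝ) (q : ℕ) : Prop :=
  ∃ P : MvPolynomial (σ ((q : ℂ)⁻¹)) (MvPolynomial (Fin n) ℤ),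
    (∀ i, P.degreeOf i ≤ d) ∧ (∀ s i, (P.coeff s).degreeOf i ≤ d) ∧
    (∀ s t, |(((P.coeff s).coeff t : ℤ) : ℝ)| ≤ (q : ℝ) ^ A) ∧
    ∃ s, MvPolynomial.aeval y (P.coeff s) ≠ 0 ∧
      ‖MvPolynomial.eval₂ (MvPolynomial.aeval y : MvPolynomial (Fin n) ℤ →ₐ[ℤ] ℂ).toRingHom (v ((q : ℂ)⁻¹)) P‖ ≤
        (q : ℝ) ^ (-B) * ‖MvPolynomial.aeval y (P.coeff s)‖

/-- an integer polynomial as a combination of monomials -/
theorem adm_of_int {σ : Type} {n : ℕ} (y : Fin n → ℂ) (d : ℕ) (H : ℝ) (hH : 0 ≤ H) (P : MvPolynomial σ (MvPolynomial (Fin n) ℤ))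
    (h1 : ∀ i, P.degreeOf i ≤ d) (h2 : ∀ s i, (P.coeff s).degreeOf i ≤ d)
    (h3 : ∀ s t, |(((P.coeff s).coeff t : ℤ) : ℝ)| ≤ H) :
    AdmG ℚ (algebraMap ℚ ℂ) (fun i : Fin (Fintype.card (Fin n → Fin (d + 1))) =>
        ∏ j, y j ^ (((Fintype.equivFin (Fin n → Fin (d + 1))).symm i j : Fin (d + 1)) : ℕ)) d H
      (MvPolynomial.map (MvPolynomial.aeval y : MvPolynomial (Fin n) ℤ →ₐ[ℤ] ℂ).toRingHom P) := by
  classical
  refine ⟨fun i => ?_, fun s => ?_⟩
  · rw [MvPolynomial.degreeOf_le_iff]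
    intro s hs
    exact (MvPolynomial.monomial_le_degreeOf i (MvPolynomial.support_map_subset _ _ hs)).trans (h1 i)
  · let e := Fintype.equivFin (Fin n → Fin (d + 1))
    let mon : (Fin n → Fin (d + 1)) → (Fin n →₀ ℕ) := fun μ => Finsupp.equivFunOnFinite.symm fun j => (μ j : ℕ)
    have hmon : Function.Injective mon := by
      intro μ ν h
      funext j
      have := DFunLike.congr_fun h j
      exact Fin.ext this
    refine ⟨fun i => (((P.coeff s).coeff (mon (e.symm i)) : ℤ) : 𝓞 ℚ), fun i φ => ?_, ?_⟩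
    · have h4 : φ ((((P.coeff s).coeff (mon (e.symm i)) : ℤ) : 𝓞 ℚ) : ℚ) = (((P.coeff s).coeff (mon (e.symm i)) : ℤ) : ℂ) := by
        simp
      rw [h4, Complex.norm_intCast]
      exact h3 s _
    · rw [MvPolynomial.coeff_map]
      change MvPolynomial.aeval y (P.coeff s) = _
      have h5 : MvPolynomial.aeval y (P.coeff s) = ∑ t ∈ (P.coeff s).support, (((P.coeff s).coeff t : ℤ) : ℂ) * ∏ j, y j ^ t j := by
        rw [MvPolynomial.aeval_def, MvPolynomial.eval₂_eq']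
        simp
      have h6 : (P.coeff s).support ⊆ Finset.univ.image mon := by
        intro t ht
        rw [Finset.mem_image]
        refine ⟨fun j => ⟨t j, Nat.lt_succ_of_le ((MvPolynomial.monomial_le_degreeOf j ht).trans (h2 s j))⟩, Finset.mem_univ _, ?_⟩
        ext j
        rfl
      rw [h5, Finset.sum_subset h6, Finset.sum_image fun μ _ ν _ h => hmon h, ← e.symm.sum_comp]
      · refine Finset.sum_congr rfl fun i _ => ?_
        have h7 : (algebraMap ℚ ℂ) ((((P.coeff s).coeff (mon (e.symm i)) : ℤ) : 𝓞 ℚ) : ℚ) =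
            (((P.coeff s).coeff (mon (e.symm i)) : ℤ) : ℂ) := by simp
        rw [h7, mul_comm]
        rfl
      · intro t _ ht
        rw [MvPolynomial.notMem_support_iff.1 ht]
        simp

/-- the number of exceptional `q` up to `2 ^ (2 ^ k)` -/
theorem count_inv {σ : ℂ → Type} (v : ∀ a, σ a → ℂ) (d : ℕ) (A : ℝ) (hA : 0 ≤ A) (n : ℕ)
    (hmain : ∃ (B : ℝ) (C : ℕ) (T₀ : ℝ), 2 ≤ T₀ ∧ 0 ≤ B ∧
      ∀ (ξ : Fin (Fintype.card (Fin n → Fin (d + 1))) → ℂ) (T : ℝ), T₀ ≤ T → ∀ Y : Finset ℚ,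
        (∀ x ∈ Y, ((algebraMap ℚ ℂ) x).im = 0 ∧ Y120.HtLe ℚ T x ∧ ∃ P : MvPolynomial (σ ((algebraMap ℚ ℂ) x)) ℂ,
          AdmG ℚ (algebraMap ℚ ℂ) ξ d (T ^ A) P ∧
            ∃ s₀, P.coeff s₀ ≠ 0 ∧ ‖MvPolynomial.aeval (v ((algebraMap ℚ ℂ) x)) P‖ ≤ T ^ (-B) * ‖P.coeff s₀‖) →
        (∀ x ∈ Y, ∀ y ∈ Y, ‖(algebraMap ℚ ℂ) x - (algebraMap ℚ ℂ) y‖ ≤ T ^ (-(1 / 4 : ℝ))) → Y.card ≤ C) :
    ∃ (B : ℝ) (C : ℕ), 0 ≤ B ∧ ∀ (y : Fin n → ℂ) (k : ℕ),
      {q : ℕ | 1 ≤ q ∧ q ≤ 2 ^ 2 ^ k ∧ BadInv v y d A B q}.ncard ≤ C * (k + 1) := by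
  classical
  obtain ⟨B, C, T₀, hT₀, hB, H⟩ := hmain
  refine ⟨2 * B, C + ⌈T₀⌉₊ + 3, by linarith, fun y k => ?_⟩
  have hfin : ∀ k, {q : ℕ | 1 ≤ q ∧ q ≤ 2 ^ 2 ^ k ∧ BadInv v y d A (2 * B) q}.Finite := fun k =>
    (Set.finite_Iic (2 ^ 2 ^ k)).subset fun q hq => hq.2.1
  induction k with
  | zero =>
    have h1 : {q : ℕ | 1 ≤ q ∧ q ≤ 2 ^ 2 ^ 0 ∧ BadInv v y d A (2 * B) q} ⊆ ((Finset.Icc 1 2 : Finset ℕ) : Set ℕ) := by
      intro q hq
      simp only [Finset.coe_Icc, Set.mem_Icc]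
      exact ⟨hq.1, by simpa using hq.2.1⟩
    have h2 := Set.ncard_le_ncard h1 (Finset.finite_toSet _)
    rw [Set.ncard_coe_finset] at h2
    have h3 : (Finset.Icc 1 2 : Finset ℕ).card = 2 := by simp
    rw [h3] at h2
    simp only [zero_add, mul_one]
    exact h2.trans (by omega)
  | succ k ih =>
    set N : ℕ := 2 ^ 2 ^ k with hN
    have hNN : (2 : ℕ) ^ 2 ^ (k + 1) = N ^ 2 := by rw [hN, ← pow_mul, pow_succ]
    have hN2 : 2 ≤ N := by
      rw [hN]
      calc 2 = 2 ^ 1 := rfl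
        _ ≤ 2 ^ 2 ^ k := Nat.pow_le_pow_right (by norm_num) Nat.one_le_two_pow
    set Sn : Set ℕ := {q : ℕ | N < q ∧ q ≤ N ^ 2 ∧ BadInv v y d A (2 * B) q} with hSn
    have hSnf : Sn.Finite := (Set.finite_Iic (N ^ 2)).subset fun q hq => hq.2.1
    have hsub : {q : ℕ | 1 ≤ q ∧ q ≤ 2 ^ 2 ^ (k + 1) ∧ BadInv v y d A (2 * B) q} ⊆
        {q : ℕ | 1 ≤ q ∧ q ≤ 2 ^ 2 ^ k ∧ BadInv v y d A (2 * B) q} ∪ Sn := by
      rintro q ⟨h1, h2, h3⟩
      by_cases hq : q ≤ N
      · exact Or.inl ⟨h1, hq, h3⟩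
      · exact Or.inr ⟨by omega, by rw [← hNN]; exact h2, h3⟩
    have hcard : Sn.ncard ≤ C + ⌈T₀⌉₊ := by
      by_cases hT : (N : ℝ) ^ 2 < T₀
      · have h1 : Sn ⊆ ((Finset.Icc 1 ⌈T₀⌉₊ : Finset ℕ) : Set ℕ) := by
          rintro q ⟨h1, h2, -⟩
          simp only [Finset.coe_Icc, Set.mem_Icc]
          refine ⟨by omega, ?_⟩
          have h4 : (q : ℝ) ≤ (N : ℝ) ^ 2 := by exact_mod_cast h2
          have h5 : (q : ℝ) ≤ ⌈T₀⌉₊ := (h4.trans hT.le).trans (Nat.le_ceil _)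
          exact_mod_cast h5
        have h2 := Set.ncard_le_ncard h1 (Finset.finite_toSet _)
        rw [Set.ncard_coe_finset, Nat.card_Icc, Nat.add_sub_cancel] at h2
        omega
      · push Not at hT
        set T : ℝ := (N : ℝ) ^ 2 with hTd
        have hN2' : (2 : ℝ) ≤ N := by exact_mod_cast hN2
        have hTp : 0 < T := by positivity
        have hT1 : 1 ≤ T := by nlinarith
        set Y : Finset ℚ := hSnf.toFinset.image fun q : ℕ => ((q : ℚ))⁻¹ with hY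
        have hinj : Function.Injective fun q : ℕ => ((q : ℚ))⁻¹ := by
          intro a b hab
          have := inv_injective hab
          exact_mod_cast this
        have hYc : Y.card = Sn.ncard := by
          rw [hY, Finset.card_image_of_injective _ hinj, Set.ncard_eq_toFinset_card _ hSnf]
        rw [← hYc]
        refine (H (fun i => ∏ j, y j ^ (((Fintype.equivFin (Fin n → Fin (d + 1))).symm i j : Fin (d + 1)) : ℕ)) T hT Y
          ?_ ?_).trans (Nat.le_add_right _ _)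
        · intro x hx
          rw [hY, Finset.mem_image] at hx
          obtain ⟨q, hq, rfl⟩ := hx
          rw [Set.Finite.mem_toFinset] at hq
          obtain ⟨hq1, hq2, P, hP1, hP2, hP3, s, hs, hPs⟩ := hq
          have hqp : 0 < q := by omega
          have hqr : (0 : ℝ) < q := by exact_mod_cast hqp
          have hq1r : (1 : ℝ) ≤ q := by exact_mod_cast hqp
          have hqT : (q : ℝ) ≤ T := by rw [hTd]; exact_mod_cast hq2
          have hcast : (algebraMap ℚ ℂ) (((q : ℚ))⁻¹) = ((q : ℂ))⁻¹ := by simp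
          refine ⟨?_, ?_, ?_⟩
          · rw [hcast]
            have : ((q : ℂ))⁻¹ = (((q : ℝ)⁻¹ : ℝ) : ℂ) := by push_cast; rfl
            rw [this, Complex.ofReal_im]
          · refine ⟨1, (q : 𝓞 ℚ), by exact_mod_cast hqp.ne', ?_, ?_, by simp⟩
            · refine Y120.house_le ℚ hTp.le fun φ => ?_
              simp only [map_one, norm_one]
              exact hT1
            · refine Y120.house_le ℚ hTp.le fun φ => ?_
              have : φ (((q : 𝓞 ℚ)) : ℚ) = (q : ℂ) := by simp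
              rw [this, Complex.norm_natCast]
              exact hqT
          · rw [hcast]
            refine ⟨MvPolynomial.map (MvPolynomial.aeval y : MvPolynomial (Fin n) ℤ →ₐ[ℤ] ℂ).toRingHom P, ?_, s, ?_, ?_⟩
            · refine adm_of_int y d (T ^ A) (Real.rpow_nonneg hTp.le _) P hP1 hP2 fun s t => ?_
              exact (hP3 s t).trans (Real.rpow_le_rpow hqr.le hqT hA)
            · rw [MvPolynomial.coeff_map]
              exact hs
            · rw [MvPolynomial.coeff_map]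
              have h1 : MvPolynomial.aeval (v ((q : ℂ)⁻¹))
                  (MvPolynomial.map (MvPolynomial.aeval y : MvPolynomial (Fin n) ℤ →ₐ[ℤ] ℂ).toRingHom P) =
                  MvPolynomial.eval₂ (MvPolynomial.aeval y : MvPolynomial (Fin n) ℤ →ₐ[ℤ] ℂ).toRingHom (v ((q : ℂ)⁻¹)) P := by
                rw [MvPolynomial.aeval_def, MvPolynomial.eval₂_map]
                rfl
              rw [h1]
              refine hPs.trans (mul_le_mul_of_nonneg_right ?_ (norm_nonneg _))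
              have hNq : (N : ℝ) ≤ q := by exact_mod_cast hq1.le
              rw [Real.rpow_neg hqr.le, Real.rpow_neg hTp.le]
              refine inv_anti₀ (Real.rpow_pos_of_pos hTp _) ?_
              have h2 : T ^ B = (N : ℝ) ^ (2 * B) := by
                rw [hTd, ← Real.rpow_natCast, ← Real.rpow_mul (by positivity)]
                norm_num
              rw [h2]
              exact Real.rpow_le_rpow (by positivity) hNq (by linarith)
        · intro x hx x' hx'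
          rw [hY, Finset.mem_image] at hx hx'
          obtain ⟨q, hq, rfl⟩ := hx
          obtain ⟨q', hq', rfl⟩ := hx'
          rw [Set.Finite.mem_toFinset] at hq hq'
          have hb : ∀ q : ℕ, q ∈ Sn → 0 ≤ ((q : ℝ))⁻¹ ∧ ((q : ℝ))⁻¹ ≤ (N : ℝ)⁻¹ := by
            intro q hq
            refine ⟨by positivity, ?_⟩
            exact inv_anti₀ (by linarith) (by exact_mod_cast hq.1.le)
          have h1 := hb q hq
          have h2 := hb q' hq'
          have h3 : (algebraMap ℚ ℂ) (((q : ℚ))⁻¹) - (algebraMap ℚ ℂ) (((q' : ℚ))⁻¹) =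
              ((((q : ℝ))⁻¹ - ((q' : ℝ))⁻¹ : ℝ) : ℂ) := by
            push_cast
            simp
          rw [h3, Complex.norm_real, Real.norm_eq_abs]
          have h4 : |((q : ℝ))⁻¹ - ((q' : ℝ))⁻¹| ≤ (N : ℝ)⁻¹ := by
            rw [abs_le]
            constructor <;> linarith
          refine h4.trans ?_
          have h5 : T ^ (-(1 / 4 : ℝ)) = (N : ℝ) ^ (-(1 / 2 : ℝ)) := by
            rw [hTd, ← Real.rpow_natCast, ← Real.rpow_mul (by positivity)]
            norm_num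
          rw [h5, ← Real.rpow_neg_one]
          exact Real.rpow_le_rpow_of_exponent_le (by linarith) (by norm_num)
    calc _ ≤ ({q : ℕ | 1 ≤ q ∧ q ≤ 2 ^ 2 ^ k ∧ BadInv v y d A (2 * B) q} ∪ Sn).ncard :=
          Set.ncard_le_ncard hsub ((hfin k).union hSnf)
      _ ≤ _ := Set.ncard_union_le _ _
      _ ≤ (C + ⌈T₀⌉₊ + 3) * (k + 1) + (C + ⌈T₀⌉₊) := add_le_add ih hcard
      _ ≤ (C + ⌈T₀⌉₊ + 3) * (k + 1 + 1) := by ring_nf; omega

end Pool.Agent.H488.Z
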