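import Pool.Agent.H488.Z.Lev

/-!
# Level sets of an analytic function: a bounded number of exceptional values in small discs
-/

set_option autoImplicit false

open Filter Topology NumberField

namespace Pool.Agent.H488.Z

/-- all but countably many values are algebraically independent of the points of `U` with this value -/
def Gen (F : ℂ → ℂ) (U : Set ℂ) : Prop :=
  ∀ K : Subfield ℂ, Countable K → ∃ E : Set ℂ, E.Countable ∧ ∀ a, a ∉ E → ∀ (n : ℕ) (s : Fin n → ℂ),
    Function.Injective s → (∀ i, s i ∈ U ∧ F (s i) = a) →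
      AlgebraicIndependent K (fun o : Option (Fin n) => o.elim a s)

/-- the curve of a chart -/
def Chart.y {F : ℂ → ℂ} {U K : Set ℂ} {a₀ : ℂ} (c : Chart F U K a₀) (o : Option c.κ) (w : ℂ) : ℂ :=
  o.elim (a₀ + w ^ c.e) fun i => c.f i w

theorem Chart.y_an {F : ℂ → ℂ} {U K : Set ℂ} {a₀ : ℂ} (c : Chart F U K a₀) (o : Option c.κ) (w : ℂ)
    (hw : w ∈ Metric.closedBall (0 : ℂ) c.r) : AnalyticAt ℂ (c.y o) w := by
  rcases o with _ | i
  · exact analyticAt_const.add (analyticAt_id.pow _)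
  · exact c.an i w hw

theorem countable_root (e : ℕ) (he : 0 < e) (a₀ : ℂ) (E : Set ℂ) (hE : E.Countable) :
    {w : ℂ | a₀ + w ^ e ∈ E}.Countable := by
  have h1 : {w : ℂ | a₀ + w ^ e ∈ E} ⊆ ⋃ a ∈ E, {w : ℂ | w ^ e = a - a₀} := by
    intro w hw
    rw [Set.mem_iUnion₂]
    exact ⟨_, hw, by simp⟩
  refine (hE.biUnion fun a _ => ?_).mono h1
  have h2 : {w : ℂ | w ^ e = a - a₀} = ((Polynomial.nthRoots e (a - a₀)).toFinset : Set ℂ) := by
    ext w
    simp [Polynomial.mem_nthRoots he]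
  rw [h2]
  exact (Finset.finite_toSet _).countable

theorem Chart.locP {F : ℂ → ℂ} {U K : Set ℂ} {a₀ : ℂ} (c : Chart F U K a₀) (hG : Gen F U) (t : ℂ)
    (ht : t ∈ Metric.closedBall (0 : ℂ) c.r) : LocP c.y t := by
  classical
  intro P hP
  have := c.fin
  -- the identity theorem
  have hA : AnalyticOnNhd ℂ (fun w => MvPolynomial.eval (fun o => c.y o w) P) (Metric.closedBall (0 : ℂ) c.r) := by
    intro w hw
    exact AnalyticAt.aeval_mvPolynomial (𝕜 := ℂ) (z := w) (f := fun w (o : Option c.κ) => c.y o w)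
      (fun o => c.y_an o w hw) P
  have hz : ∀ w ∈ Metric.closedBall (0 : ℂ) c.r, MvPolynomial.eval (fun o => c.y o w) P = 0 := fun w hw =>
    hA.eqOn_zero_of_preconnected_of_eventuallyEq_zero (convex_closedBall (0 : ℂ) c.r).isPreconnected ht hP hw
  -- the coefficients
  let k : Subfield ℂ := Subfield.closure (P.coeffs : Set ℂ)
  have hkc : Countable k := by
    rw [← Cardinal.mk_le_aleph0_iff]
    refine (Subfield.cardinalMk_closure_le_max _).trans (max_le ?_ le_rfl)
    rw [Cardinal.mk_le_aleph0_iff]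
    exact P.coeffs.countable_toSet.to_subtype
  obtain ⟨Pk, hPk⟩ : ∃ Pk : MvPolynomial (Option c.κ) k, MvPolynomial.map (algebraMap k ℂ) Pk = P := by
    have h1 : P ∈ Set.range (MvPolynomial.map (algebraMap k ℂ)) := by
      rw [MvPolynomial.mem_range_map_iff_coeffs_subset]
      intro x hx
      exact ⟨⟨x, Subfield.subset_closure hx⟩, rfl⟩
    exact h1
  obtain ⟨E, hE, hEa⟩ := hG k hkc
  -- a good parameter
  have hcount : ({0} ∪ {w : ℂ | a₀ + w ^ c.e ∈ E}).Countable := (Set.countable_singleton 0).union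
    (countable_root c.e c.he a₀ E hE)
  obtain ⟨w, hwb, hw⟩ : ∃ w ∈ Metric.closedBall (0 : ℂ) c.r, w ∉ ({0} ∪ {w : ℂ | a₀ + w ^ c.e ∈ E} : Set ℂ) := by
    by_contra hcon
    push Not at hcon
    have h1 : (Metric.ball (0 : ℂ) c.r).Countable := hcount.mono fun w hw =>
      hcon w (Metric.ball_subset_closedBall hw)
    have h2 : (interior (Metric.ball (0 : ℂ) c.r)).Nonempty := by
      rw [Metric.isOpen_ball.interior_eq]
      exact ⟨0, Metric.mem_ball_self c.hr⟩
    have h3 := h1.dense_compl ℂ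
    obtain ⟨z, hz1, hz2⟩ := h3.inter_open_nonempty _ isOpen_interior h2
    exact hz2 (interior_subset hz1)
  rw [Set.mem_union, not_or] at hw
  have hw0 : w ≠ 0 := hw.1
  have hwE : a₀ + w ^ c.e ∉ E := hw.2
  -- numbering
  let eq := Fintype.equivFin c.κ
  have hAI := hEa _ hwE (Fintype.card c.κ) (fun i => c.f (eq.symm i) w)
    (fun i j hij => eq.symm.injective (c.inj w hwb hw0 hij))
    (fun i => c.mem _ w hwb)
  have h4 : AlgebraicIndependent k (fun o : Option c.κ => c.y o w) := by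
    have h5 := hAI.comp (fun o : Option c.κ => o.map eq) (Option.map_injective eq.injective)
    convert h5 using 1
    funext o
    rcases o with _ | i
    · rfl
    · simp [Chart.y]
  have h6 : MvPolynomial.aeval (fun o : Option c.κ => c.y o w) Pk = 0 := by
    have h7 := hz w hwb
    rw [← hPk, MvPolynomial.eval_map] at h7
    rw [MvPolynomial.aeval_def]
    exact h7
  have h8 := h4.eq_zero_of_aeval_eq_zero _ h6
  rw [← hPk, h8, map_zero]

/-- the root of `a` closest to a root of a given number -/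
theorem near_root (e : ℕ) (he : 0 < e) (w w₀ : ℂ) :
    ∃ ζ : ℂ, ζ ^ e = 1 ∧ ‖ζ * w - w₀‖ ^ e ≤ ‖w ^ e - w₀ ^ e‖ := by
  have hr : IsPrimitiveRoot (Complex.exp (2 * Real.pi * Complex.I / e)) e := Complex.isPrimitiveRoot_exp _ he.ne'
  have h1 := hr.pow_sub_pow_eq_prod_sub_mul w₀ w he
  have h2 : ‖w ^ e - w₀ ^ e‖ = ∏ ζ ∈ Polynomial.nthRootsFinset e (1 : ℂ), ‖w₀ - ζ * w‖ := by
    rw [norm_sub_rev, h1, norm_prod]
  have hcard : (Polynomial.nthRootsFinset e (1 : ℂ)).card = e := hr.card_nthRootsFinset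
  by_contra hcon
  push Not at hcon
  have hne : (Polynomial.nthRootsFinset e (1 : ℂ)).Nonempty := by
    rw [← Finset.card_pos, hcard]
    exact he
  obtain ⟨ζ₀, hζ₀, hmin⟩ := Finset.exists_min_image _ (fun ζ => ‖w₀ - ζ * w‖) hne
  have h3 : ‖w₀ - ζ₀ * w‖ ^ e ≤ ∏ ζ ∈ Polynomial.nthRootsFinset e (1 : ℂ), ‖w₀ - ζ * w‖ := by
    calc ‖w₀ - ζ₀ * w‖ ^ e = ∏ _ζ ∈ Polynomial.nthRootsFinset e (1 : ℂ), ‖w₀ - ζ₀ * w‖ := by
          rw [Finset.prod_const, hcard]
      _ ≤ _ := Finset.prod_le_prod (fun _ _ => norm_nonneg _) fun ζ hζ => hmin ζ hζ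
  have h4 := hcon ζ₀ ((Polynomial.mem_nthRootsFinset he (1 : ℂ)).1 hζ₀)
  rw [h2, norm_sub_rev (ζ₀ * w)] at h4
  exact absurd h3 (not_le.2 h4)

end Pool.Agent.H488.Z
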