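import Pool.Agent.H488.Z.NF
import Pool.Graph.R_pool_sql_team_seeded_1acbe0a2.Y922.AP.Ram

/-!
# The points with a given value near a compact set, as values of analytic functions of a root of the value
-/

set_option autoImplicit false

open Filter Topology

namespace Pool.Agent.H488.Z

/-- the normal form of an analytic function near any point -/
theorem normal_form {F : ℂ → ℂ} {z : ℂ} (hF : AnalyticAt ℂ F z) (hnc : ¬ ∀ᶠ s in 𝓝 z, F s = F z) :
    ∃ (m : ℕ) (ψ φ : ℂ → ℂ), 1 ≤ m ∧ AnalyticAt ℂ ψ z ∧ AnalyticAt ℂ φ 0 ∧ φ 0 = z ∧ ψ z = 0 ∧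
      (∀ᶠ y in 𝓝 z, F y = F z + ψ y ^ m) ∧ (∀ᶠ y in 𝓝 z, φ (ψ y) = y) ∧ (∀ᶠ u in 𝓝 (0 : ℂ), ψ (φ u) = u) := by
  by_cases hd : deriv F z = 0
  · obtain ⟨m, ψ, φ, hm, h⟩ := Pool.Agent.Y922.AP.ram hF hnc hd
    exact ⟨m, ψ, φ, by omega, h⟩
  · obtain ⟨g, hg, hgz, h1, h2⟩ := Pool.Agent.Y922.AP.loc_inv hF hd
    refine ⟨1, fun y => F y - F z, fun u => g (F z + u), le_rfl, hF.sub analyticAt_const, ?_, ?_, by simp, ?_, ?_, ?_⟩
    · refine AnalyticAt.fun_comp (g := g) (f := fun u => F z + u) (x := 0) ?_ (analyticAt_const.add analyticAt_id)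
      simpa using hg
    · simpa using hgz
    · exact Eventually.of_forall fun y => by simp
    · filter_upwards [h1] with y hy
      rw [add_sub_cancel]
      exact hy
    · have h3 : Tendsto (fun u : ℂ => F z + u) (𝓝 0) (𝓝 (F z)) := by
        have : Tendsto (fun u : ℂ => F z + u) (𝓝 0) (𝓝 (F z + 0)) := tendsto_const_nhds.add tendsto_id
        rwa [add_zero] at this
      filter_upwards [h3.eventually h2] with u hu
      rw [hu, add_sub_cancel_left]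

/-- all the points of `K` with values near `a₀` -/
structure Chart (F : ℂ → ℂ) (U K : Set ℂ) (a₀ : ℂ) where
  /-- the branches -/
  κ : Type
  fin : Fintype κ
  dec : DecidableEq κ
  /-- ramification -/
  e : ℕ
  he : 0 < e
  /-- radius -/
  r : ℝ
  hr : 0 < r
  /-- the branches -/
  f : κ → ℂ → ℂ
  an : ∀ i, ∀ w ∈ Metric.closedBall (0 : ℂ) r, AnalyticAt ℂ (f i) w
  mem : ∀ i, ∀ w ∈ Metric.closedBall (0 : ℂ) r, f i w ∈ U ∧ F (f i w) = a₀ + w ^ e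
  inj : ∀ w ∈ Metric.closedBall (0 : ℂ) r, w ≠ 0 → Function.Injective fun i => f i w
  cov : ∀ s ∈ K, ∀ w ∈ Metric.closedBall (0 : ℂ) r, F s = a₀ + w ^ e → ∃ i, f i w = s

/-- the points with the value `a₀` are isolated -/
theorem finite_fibre {F : ℂ → ℂ} {U K : Set ℂ} (hF : ∀ z ∈ U, AnalyticAt ℂ F z)
    (hnc : ∀ z ∈ U, ¬ ∀ᶠ s in 𝓝 z, F s = F z) (hK : IsCompact K) (hKU : K ⊆ U) (a₀ : ℂ) :
    {z | z ∈ K ∧ F z = a₀}.Finite := by
  classical
  have h1 : ∀ z ∈ K, ∃ N ∈ 𝓝 z, ∀ y ∈ N, F y = a₀ → y = z := by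
    intro z hz
    have h2 : AnalyticAt ℂ (fun s => F s - a₀) z := (hF z (hKU hz)).sub analyticAt_const
    rcases h2.eventually_eq_zero_or_eventually_ne_zero with h | h
    · exfalso
      apply hnc z (hKU hz)
      have h3 : F z = a₀ := sub_eq_zero.1 h.self_of_nhds
      filter_upwards [h] with s hs
      rw [h3]
      exact sub_eq_zero.1 hs
    · rw [eventually_nhdsWithin_iff] at h
      refine ⟨_, h, fun y hy hya => ?_⟩
      by_contra hne
      exact hy hne (sub_eq_zero.2 hya)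
  choose! N hN hNy using h1
  obtain ⟨t, ht, hcov⟩ := hK.elim_nhds_subcover N hN
  refine (t.finite_toSet).subset ?_
  rintro y ⟨hyK, hya⟩
  have h2 := hcov hyK
  rw [Set.mem_iUnion₂] at h2
  obtain ⟨z, hz, hyz⟩ := h2
  have := hNy z (ht z hz) y hyz hya
  rw [this]
  exact hz

theorem exists_chart {F : ℂ → ℂ} {U K : Set ℂ} (hU : IsOpen U) (hF : ∀ z ∈ U, AnalyticAt ℂ F z)
    (hnc : ∀ z ∈ U, ¬ ∀ᶠ s in 𝓝 z, F s = F z) (hK : IsCompact K) (hKU : K ⊆ U) (a₀ : ℂ) :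
    Nonempty (Chart F U K a₀) := by
  classical
  have hfin := finite_fibre hF hnc hK hKU a₀
  set Zs : Set ℂ := {z | z ∈ K ∧ F z = a₀} with hZs
  have hFin : Fintype Zs := hfin.fintype
  obtain ⟨V, hV, hVd⟩ := hfin.t2_separation
  have h1 : ∀ z : Zs, ∃ (m : ℕ) (ψ φ : ℂ → ℂ) (ρ : ℝ), 1 ≤ m ∧ 0 < ρ ∧
      (∀ u : ℂ, ‖u‖ < ρ → AnalyticAt ℂ φ u ∧ φ u ∈ V z ∧ φ u ∈ U ∧ ψ (φ u) = u ∧ F (φ u) = a₀ + u ^ m) ∧
      ∀ᶠ y in 𝓝 (z : ℂ), ‖ψ y‖ < ρ ∧ φ (ψ y) = y ∧ F y = a₀ + ψ y ^ m := by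
    rintro ⟨z, hzK, hza⟩
    obtain ⟨m, ψ, φ, hm, hψ, hφ, hφ0, hψ0, h1, h2, h3⟩ := normal_form (hF z (hKU hzK)) (hnc z (hKU hzK))
    have hφc : Tendsto φ (𝓝 0) (𝓝 z) := by
      have := hφ.continuousAt
      rwa [ContinuousAt, hφ0] at this
    have h4 : ∀ᶠ u in 𝓝 (0 : ℂ), AnalyticAt ℂ φ u ∧ φ u ∈ V z ∧ φ u ∈ U ∧ ψ (φ u) = u ∧ F (φ u) = a₀ + u ^ m := by
      filter_upwards [hφ.eventually_analyticAt, hφc.eventually ((hV z).2.mem_nhds (hV z).1),
        hφc.eventually (hU.mem_nhds (hKU hzK)), h3, hφc.eventually h1] with u e1 e2 e3 e4 e5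
      refine ⟨e1, e2, e3, e4, ?_⟩
      rw [e5, hza, e4]
    obtain ⟨ρ, hρ, h5⟩ := Metric.eventually_nhds_iff_ball.1 h4
    refine ⟨m, ψ, φ, ρ, hm, hρ, fun u hu => h5 u (by simpa using hu), ?_⟩
    have hψc : Tendsto ψ (𝓝 z) (𝓝 0) := by
      have := hψ.continuousAt
      rwa [ContinuousAt, hψ0] at this
    have h6 : ∀ᶠ y in 𝓝 z, ψ y ∈ Metric.ball (0 : ℂ) ρ := hψc.eventually (Metric.ball_mem_nhds _ hρ)
    filter_upwards [h6, h2, h1] with y e1 e2 e3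
    refine ⟨by simpa using e1, e2, ?_⟩
    rw [e3, hza]
  choose m ψ φ ρ hm hρ hφ hN using h1
  -- the set of good neighbourhoods
  choose N hN1 hN2 hN3 using fun z : Zs => eventually_nhds_iff.1 (hN z)
  set K' : Set ℂ := K \ ⋃ z : Zs, N z with hK'
  have hK'c : IsCompact K' := hK.diff (isOpen_iUnion fun z => hN2 z)
  have hε : ∃ ε : ℝ, 0 < ε ∧ ∀ s ∈ K', ε ≤ ‖F s - a₀‖ := by
    rcases K'.eq_empty_or_nonempty with h0 | h0
    · refine ⟨1, one_pos, fun s hs => ?_⟩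
      rw [h0] at hs
      exact absurd hs (Set.notMem_empty s)
    · obtain ⟨s₀, hs₀, hmin⟩ := hK'c.exists_isMinOn h0 (f := fun s => ‖F s - a₀‖)
        (fun s hs => ((hF s (hKU hs.1)).continuousAt.sub continuousAt_const).norm.continuousWithinAt)
      refine ⟨‖F s₀ - a₀‖, ?_, fun s hs => hmin hs⟩
      rw [norm_pos_iff, sub_ne_zero]
      intro h
      apply hs₀.2
      exact Set.mem_iUnion.2 ⟨⟨s₀, hs₀.1, h⟩, hN3 ⟨s₀, hs₀.1, h⟩⟩
  obtain ⟨ε, hε0, hε⟩ := hε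
  set e : ℕ := ∏ z, m z with he
  have he0 : 0 < e := Finset.prod_pos fun z _ => hm z
  have hdvd : ∀ z, m z ∣ e := fun z => Finset.dvd_prod_of_mem _ (Finset.mem_univ z)
  choose q hq using hdvd
  have hq1 : ∀ z, 1 ≤ q z := by
    intro z
    rcases Nat.eq_zero_or_pos (q z) with h | h
    · have := hq z
      rw [h, mul_zero] at this
      omega
    · exact h
  -- the radius
  obtain ⟨r, hr0, hr1, hrε, hrρ⟩ : ∃ r : ℝ, 0 < r ∧ r ≤ 1 ∧ r < ε ∧ ∀ z, r < ρ z := by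
    obtain ⟨ρ₀, hρ₀, hle⟩ : ∃ ρ₀ : ℝ, 0 < ρ₀ ∧ ∀ z, ρ₀ ≤ ρ z := by
      rcases isEmpty_or_nonempty Zs with h | h
      · exact ⟨1, one_pos, fun z => h.elim z⟩
      · obtain ⟨z₀, hz₀⟩ := Finite.exists_min ρ
        exact ⟨ρ z₀, hρ z₀, hz₀⟩
    refine ⟨min 1 (min ε ρ₀) / 2, by positivity, ?_, ?_, fun z => ?_⟩
    · have := min_le_left 1 (min ε ρ₀)
      have h0 : 0 < min 1 (min ε ρ₀) := by positivity
      linarith
    · have := (min_le_right 1 (min ε ρ₀)).trans (min_le_left _ _)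
      have h0 : 0 < min 1 (min ε ρ₀) := by positivity
      linarith
    · have := (min_le_right 1 (min ε ρ₀)).trans (min_le_right _ _)
      have h0 : 0 < min 1 (min ε ρ₀) := by positivity
      have := hle z
      linarith
  have hroot : ∀ z, IsPrimitiveRoot (Complex.exp (2 * Real.pi * Complex.I / m z)) (m z) := fun z =>
    Complex.isPrimitiveRoot_exp _ (by have := hm z; omega)
  set ω : Zs → ℂ := fun z => Complex.exp (2 * Real.pi * Complex.I / m z) with hω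
  have hω1 : ∀ z k, ‖ω z ^ k‖ = 1 := by
    intro z k
    rw [norm_pow, (hroot z).norm'_eq_one (by have := hm z; omega), one_pow]
  have hsmall : ∀ (z : Zs) (k : ℕ) (w : ℂ), w ∈ Metric.closedBall (0 : ℂ) r → ‖ω z ^ k * w ^ q z‖ < ρ z := by
    intro z k w hw
    have hw' : ‖w‖ ≤ r := by simpa using hw
    rw [norm_mul, hω1, one_mul, norm_pow]
    calc ‖w‖ ^ q z ≤ r ^ q z := pow_le_pow_left₀ (norm_nonneg _) hw' _
      _ ≤ r ^ 1 := pow_le_pow_of_le_one hr0.le hr1 (hq1 z)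
      _ = r := pow_one r
      _ < ρ z := hrρ z
  have hpow : ∀ (z : Zs) (k : ℕ) (w : ℂ), (ω z ^ k * w ^ q z) ^ m z = w ^ e := by
    intro z k w
    rw [mul_pow, ← pow_mul, mul_comm k, pow_mul, (hroot z).pow_eq_one, one_pow, one_mul, ← pow_mul, mul_comm (q z), ← hq z]
  refine ⟨⟨Σ z : Zs, Fin (m z), inferInstance, inferInstance, e, he0, r, hr0,
    fun i w => φ i.1 (ω i.1 ^ (i.2 : ℕ) * w ^ q i.1), ?_, ?_, ?_, ?_⟩⟩
  · rintro ⟨z, k⟩ w hw
    exact AnalyticAt.fun_comp (g := φ z) (f := fun w => ω z ^ (k : ℕ) * w ^ q z) ((hφ z _ (hsmall z k w hw)).1)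
      (analyticAt_const.mul (analyticAt_id.pow _))
  · rintro ⟨z, k⟩ w hw
    have h1 := hφ z _ (hsmall z k w hw)
    refine ⟨h1.2.2.1, ?_⟩
    rw [h1.2.2.2.2, hpow]
  · rintro w hw hw0 ⟨z, k⟩ ⟨z', k'⟩ heq
    have h1 := hφ z _ (hsmall z k w hw)
    have h2 := hφ z' _ (hsmall z' k' w hw)
    simp only at heq
    by_cases hzz : z = z'
    · subst hzz
      have h3 : ω z ^ (k : ℕ) * w ^ q z = ω z ^ (k' : ℕ) * w ^ q z := by
        rw [← h1.2.2.2.1, ← h2.2.2.2.1, heq]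
      have h4 := mul_right_cancel₀ (pow_ne_zero _ hw0) h3
      have h5 := (hroot z).pow_inj k.2 k'.2 h4
      rw [Fin.ext h5]
    · exfalso
      have h3 := hVd z.2 z'.2 (fun h => hzz (Subtype.ext h))
      exact Set.disjoint_left.1 h3 h1.2.1 (heq ▸ h2.2.1)
  · intro s hs w hw hFs
    have hw' : ‖w‖ ≤ r := by simpa using hw
    have h1 : s ∉ K' := by
      intro h
      have h2 := hε s h
      rw [hFs, add_sub_cancel_left, norm_pow] at h2
      have h3 : ‖w‖ ^ e ≤ r := by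
        calc ‖w‖ ^ e ≤ r ^ e := pow_le_pow_left₀ (norm_nonneg _) hw' _
          _ ≤ r ^ 1 := pow_le_pow_of_le_one hr0.le hr1 he0
          _ = r := pow_one r
      linarith
    have h2 : s ∈ ⋃ z : Zs, N z := by
      by_contra h
      exact h1 ⟨hs, h⟩
    obtain ⟨z, hz⟩ := Set.mem_iUnion.1 h2
    obtain ⟨h3, h4, h5⟩ := hN1 z s hz
    have h6 : ψ z s ^ m z = w ^ e := by
      rw [hFs] at h5
      exact (add_left_cancel h5).symm
    have hm0 : m z ≠ 0 := by have := hm z; omega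
    by_cases hw0 : w = 0
    · refine ⟨⟨z, ⟨0, hm z⟩⟩, ?_⟩
      have h7 : ψ z s = 0 := by
        rw [hw0, zero_pow he0.ne'] at h6
        exact pow_eq_zero_iff hm0 |>.1 h6
      simp only [pow_zero, one_mul]
      rw [hw0, zero_pow (by have := hq1 z; omega), ← h7]
      exact h4
    · have h7 : (ψ z s / w ^ q z) ^ m z = 1 := by
        rw [div_pow, h6, ← pow_mul, mul_comm (q z), ← hq z]
        exact div_self (pow_ne_zero _ hw0)
      have : NeZero (m z) := ⟨hm0⟩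
      obtain ⟨k, hk, hk'⟩ := (hroot z).eq_pow_of_pow_eq_one h7
      refine ⟨⟨z, ⟨k, hk⟩⟩, ?_⟩
      simp only
      rw [hω]
      simp only
      rw [hk', div_mul_cancel₀ _ (pow_ne_zero _ hw0)]
      exact h4

end Pool.Agent.H488.Z
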