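import Pool.Agent.H488.Z.Abs
import Pool.Graph.R_seed8.Y120.Loc

/-!
# The local theorem for parametrized curves

A bounded number of exceptional points in a disc of radius `T ^ (-η)` of the parameter plane. The proof is that of
`Pool.Agent.Y120.local_thmN`; the first coordinate of the curve is now any function of the parameter, so that points of
ramification are allowed.
-/

set_option autoImplicit false

open Finset Filter Topology

namespace Pool.Agent.H488.Z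

open Pool.Agent.Y120

/-- uniform families of parametrized curves with Taylor expansions -/
structure ChartsP (σ : Type) where
  /-- index set -/
  Θ : Type
  /-- centres -/
  τ : Θ → ℂ
  /-- domains -/
  dom : Θ → Set ℂ
  /-- coordinates -/
  y : Θ → Option σ → ℂ → ℂ
  /-- Taylor coefficients of the monomials -/
  a : Θ → (Option σ →₀ ℕ) → ℕ → ℂ
  ab : ∀ j p, ∃ C : ℝ, ∀ θ, ‖a θ j p‖ ≤ C
  approx : ∀ j P, ∃ C : ℝ, ∀ θ, ∀ t ∈ dom θ,
    ‖mv (fun o => y θ o t) j - ∑ p ∈ range P, a θ j p * (t - τ θ) ^ p‖ ≤ C * ‖t - τ θ‖ ^ P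
  lip : ∃ C : ℝ, 0 < C ∧ ∀ θ, ∀ t ∈ dom θ, ∀ t' ∈ dom θ, ‖y θ none t - y θ none t'‖ ≤ C * ‖t - t'‖
  nd : ∀ 𝓜 : Finset (Option σ →₀ ℕ), ∃ N₀ : ℕ, ∃ c₀ : ℝ, 0 < c₀ ∧ ∀ θ, ∀ g : (Option σ →₀ ℕ) → ℂ,
    ∃ p ≤ N₀, ∀ j ∈ 𝓜, c₀ * ‖g j‖ ≤ ‖∑ j' ∈ 𝓜, g j' * a θ j' p‖

/-- the local theorem, with arbitrary constants `κ` -/
theorem local_thmP {g : ℕ} {σ S : Type} [Fintype S] (Ch : ChartsP σ) (E : Finset (σ →₀ ℕ)) (η : ℝ) (hη : 0 < η)
    (A B' : ℕ) : ∃ (B C : ℕ) (T₀ : ℝ), 2 ≤ T₀ ∧ ∀ T : ℝ, T₀ ≤ T → ∀ R : Subring (Fin (g + 1) → ℂ), NormRing R →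
    ∀ κ : S → ℂ, (∀ s, ‖κ s‖ ≤ T ^ B') → ∀ θ : Ch.Θ, ∀ pts : Finset ℂ,
    (∀ t ∈ pts, ∀ t' ∈ pts, Ch.y θ none t = Ch.y θ none t' → t = t') →
    (∀ t ∈ pts, t ∈ Ch.dom θ ∧ ‖t - Ch.τ θ‖ ≤ T ^ (-η) ∧ Pt R T (Ch.y θ none t) ∧
      ExcN R T A B B' κ E (fun i => Ch.y θ (some i) t)) → pts.card ≤ C := by
  classical
  by_contra hcon
  push Not at hcon
  have h : ∀ j : ℕ, ∃ T : ℝ, max (j : ℝ) 2 ≤ T ∧ ∃ R : Subring (Fin (g + 1) → ℂ), NormRing R ∧
    ∃ κ : S → ℂ, (∀ s, ‖κ s‖ ≤ T ^ B') ∧ ∃ θ : Ch.Θ, ∃ pts : Finset ℂ,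
    (∀ t ∈ pts, ∀ t' ∈ pts, Ch.y θ none t = Ch.y θ none t' → t = t') ∧
    (∀ t ∈ pts, t ∈ Ch.dom θ ∧ ‖t - Ch.τ θ‖ ≤ T ^ (-η) ∧ Pt R T (Ch.y θ none t) ∧
      ExcN R T A j B' κ E (fun i => Ch.y θ (some i) t)) ∧ j < pts.card := by
    intro j
    obtain ⟨T, hT, R, hR, κ, hκ, θ, pts, hi, hpts, hc⟩ := hcon j j (max (j : ℝ) 2) (le_max_right _ _)
    exact ⟨T, hT, R, hR, κ, hκ, θ, pts, hi, hpts, hc⟩
  choose T hT R hR κ hκ θ pts hinjp hpts hcard using h
  have hT2 : ∀ j, 2 ≤ T j := fun j => (le_max_right _ _).trans (hT j)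
  have hT1 : ∀ j, 1 ≤ T j := fun j => by have := hT2 j; linarith
  have hTp : ∀ j, 0 < T j := fun j => by have := hT2 j; linarith
  have hUle : ((hyperfilter ℕ : Ultrafilter ℕ) : Filter ℕ) ≤ atTop := Nat.hyperfilter_le_atTop
  set s : Scale := ⟨hyperfilter ℕ, T, hT2, by
    have h1 : Tendsto T atTop atTop :=
      tendsto_atTop_mono (fun j => (le_max_left _ _).trans (hT j)) tendsto_natCast_atTop_atTop
    exact h1.mono_left hUle⟩ with hs
  have hge : ∀ k : ℕ, ∀ᶠ j in s.U, k ≤ j := fun k => hUle (eventually_ge_atTop k)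
  -- the points
  have hpt : ∀ j k : ℕ, ∃ t : ℂ, k ≤ j → t ∈ pts j ∧ (∀ h : k < (pts j).card, t = ((pts j).equivFin.symm ⟨k, h⟩ : ℂ)) := by
    intro j k
    by_cases hk : k ≤ j
    · have h : k < (pts j).card := lt_of_le_of_lt hk (hcard j)
      exact ⟨((pts j).equivFin.symm ⟨k, h⟩ : ℂ), fun _ => ⟨((pts j).equivFin.symm ⟨k, h⟩).2, fun _ => rfl⟩⟩
    · exact ⟨0, fun h => absurd h hk⟩
  choose t ht1 ht2 using hpt
  have htinj : ∀ j k l, k ≤ j → l ≤ j → k ≠ l → t j k ≠ t j l := by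
    intro j k l hk hl hne heq
    rw [ht2 j k hk (lt_of_le_of_lt hk (hcard j)), ht2 j l hl (lt_of_le_of_lt hl (hcard j))] at heq
    have h1 := (pts j).equivFin.symm.injective (Subtype.ext heq)
    exact hne (Fin.mk.inj_iff.1 h1)
  have hPinj : ∀ j k l, k ≤ j → l ≤ j → k ≠ l → Ch.y (θ j) none (t j k) ≠ Ch.y (θ j) none (t j l) :=
    fun j k l hk hl hne heq => htinj j k l hk hl hne (hinjp j _ (ht1 j k hk) _ (ht1 j l hl) heq)
  have hdata : ∀ j k : ℕ, ∃ (a b : Fin (g + 1) → ℂ) (c : S × E → (Fin (g + 1) → ℂ)), k ≤ j →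
      (t j k ∈ Ch.dom (θ j) ∧ ‖t j k - Ch.τ (θ j)‖ ≤ T j ^ (-η)) ∧
      (a ∈ R j ∧ b ∈ R j ∧ b 0 ≠ 0 ∧ (∀ s, ‖a s‖ ≤ T j) ∧ (∀ s, ‖b s‖ ≤ T j) ∧ Ch.y (θ j) none (t j k) = a 0 / b 0) ∧
      ((∀ i, c i ∈ R j) ∧ (∃ e : E, (T j ^ B')⁻¹ < ‖∑ s, κ j s * c (s, e) 0‖) ∧ (∀ i j', ‖c i j'‖ ≤ T j ^ A) ∧
        ‖∑ e : E, (∑ s, κ j s * c (s, e) 0) * mv (fun i => Ch.y (θ j) (some i) (t j k)) (e : σ →₀ ℕ)‖ ≤ (T j ^ j)⁻¹) := by
    intro j k
    by_cases hk : k ≤ j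
    · obtain ⟨h1, h2, ⟨a, ha, b, hb, h3⟩, ⟨c, hc⟩⟩ := hpts j (t j k) (ht1 j k hk)
      exact ⟨a, b, c, fun _ => ⟨⟨h1, h2⟩, ⟨ha, hb, h3⟩, hc⟩⟩
    · exact ⟨0, 0, 0, fun h => absurd h hk⟩
  choose a b c hd using hdata
  -- elements of OO
  have hκO : ∀ x : S, (fun j => κ j x) ∈ OO s := fun x => ⟨B', Eventually.of_forall fun j => hκ j x⟩
  have hcO : ∀ k (i : S × E), (fun j => c j k i 0) ∈ OO s := fun k i => ⟨A, by
    filter_upwards [hge k] with j hj
    exact (hd j k hj).2.2.2.2.1 i 0⟩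
  have hXO : ∀ k, (fun j => t j k - Ch.τ (θ j)) ∈ OO s := by
    intro k
    refine mem_OO_of_bdd s (C := 1) ?_
    filter_upwards [hge k] with j hj
    refine (hd j k hj).1.2.trans ?_
    rw [Real.rpow_neg (hTp j).le]
    exact inv_le_one_of_one_le₀ (Real.one_le_rpow (hT1 j) hη.le)
  have haO : ∀ (m : Option σ →₀ ℕ) (p : ℕ), (fun j => Ch.a (θ j) m p) ∈ OO s := by
    intro m p
    obtain ⟨C, hC⟩ := Ch.ab m p
    exact mem_OO_of_bdd s (Eventually.of_forall fun j => hC _)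
  have hYO : ∀ (o : Option σ) k, (fun j => Ch.y (θ j) o (t j k)) ∈ OO s := by
    intro o k
    obtain ⟨C, hC⟩ := Ch.approx (Finsupp.single o 1) 0
    refine mem_OO_of_bdd s (C := C) ?_
    filter_upwards [hge k] with j hj
    have h1 := hC (θ j) (t j k) (hd j k hj).1.1
    have h2 : ∀ z : Option σ → ℂ, mv z (Finsupp.single o 1) = z o := by
      intro z
      rw [mv, Finsupp.support_single o one_ne_zero, Finset.prod_singleton]
      simp
    rw [h2] at h1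
    simpa using h1
  set Y : Option σ → ℕ → OO s := fun o k => ⟨_, hYO o k⟩ with hYdef
  set KAP : S → OO s := fun x => ⟨_, hκO x⟩ with hKAP
  set CC : ℕ → S × E → OO s := fun k i => ⟨_, hcO k i⟩ with hCC
  set XX : ℕ → OO s := fun k => ⟨_, hXO k⟩ with hXX
  set AA : (Option σ →₀ ℕ) → ℕ → OO s := fun m p => ⟨_, haO m p⟩ with hAA
  have hevY : ∀ o k j, evj s j (Y o k) = Ch.y (θ j) o (t j k) := fun o k j => rfl
  have hevC : ∀ k i j, evj s j (CC k i) = c j k i 0 := fun k i j => rfl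
  have hevK : ∀ x j, evj s j (KAP x) = κ j x := fun x j => rfl
  have hevX : ∀ k j, evj s j (XX k) = t j k - Ch.τ (θ j) := fun k j => rfl
  have hevA : ∀ m p j, evj s j (AA m p) = Ch.a (θ j) m p := fun m p j => rfl
  have hev : ∀ (x : OO s) j, x.1 j = evj s j x := fun x j => rfl
  refine abstract_falseP (wK_na s) (σ := σ) (S := S) E (ρ := Real.exp (-η)) (s := Real.exp (-(2 * (g + 1) : ℕ)))
    (Real.exp_pos _) (by rw [Real.exp_lt_one_iff]; linarith) (Real.exp_pos _)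
    (by rw [Real.exp_le_one_iff]; simp only [Left.neg_nonpos_iff]; positivity)
    (fun o k => pr s (Y o k)) (fun k => pr s (XX k)) ?_ ?_ (fun m p => pr s (AA m p)) ?_ ?_ ?_
    (fun x => pr s (KAP x)) (fun k i => pr s (CC k i)) (Real.exp A) (Real.one_le_exp (by positivity)) ?_ ?_ ?_
    (Real.exp (-((g + 1) * (A + 1) : ℕ))) (Real.exp_pos _) ?_
  · -- hx
    intro k
    refine wK_le_exp s (C := 1) one_pos ?_
    filter_upwards [hge k] with j hj
    rw [one_mul, hev, hevX]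
    exact (hd j k hj).1.2
  · -- hsep
    intro k l hkl
    rw [← map_sub]
    obtain ⟨C, hC0, hC⟩ := Ch.lip
    refine wK_ge_exp s (C := C⁻¹ * (2 ^ g)⁻¹) (by positivity) ?_
    filter_upwards [hge k, hge l] with j hj hj'
    rw [hev, map_sub, hevX, hevX, Real.rpow_neg (s.pos j).le, Real.rpow_natCast]
    obtain ⟨h1, h2, h3, h4, h5, h6⟩ := (hd j k hj).2.1
    obtain ⟨h1', h2', h3', h4', h5', h6'⟩ := (hd j l hj').2.1
    have h7 := sep (hR j) (hT1 j) ⟨_, h1, _, h2, h3, h4, h5, h6⟩ ⟨_, h1', _, h2', h3', h4', h5', h6'⟩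
      (hPinj j k l hj hj' hkl)
    have h8 := hC (θ j) _ (hd j k hj).1.1 _ (hd j l hj').1.1
    rw [mul_assoc, inv_mul_le_iff₀ hC0]
    have h9 : t j k - Ch.τ (θ j) - (t j l - Ch.τ (θ j)) = t j k - t j l := by ring
    rw [h9]
    exact h7.trans h8
  · -- ha
    intro m p
    obtain ⟨C, hC⟩ := Ch.ab m p
    have hC' : 0 < max C 1 := lt_max_of_lt_right one_pos
    have h1 := wK_le_exp s (x := AA m p) (C := max C 1) (a := 0) hC' (Eventually.of_forall fun j => by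
      rw [Real.rpow_zero, mul_one]
      exact (hC _).trans (le_max_left _ _))
    rwa [Real.exp_zero] at h1
  · -- hf
    intro m P k
    obtain ⟨C, hC⟩ := Ch.approx m P
    have hC' : 0 < max C 1 := lt_max_of_lt_right one_pos
    have h0 : mv (fun i => pr s (Y i k)) m - ∑ p ∈ range P, pr s (AA m p) * pr s (XX k) ^ p =
        pr s (mv (fun i => Y i k) m - ∑ p ∈ range P, AA m p * XX k ^ p) := by
      simp only [map_sub, map_sum, map_mul, map_pow, map_mv]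
    rw [h0, ← Real.exp_nat_mul]
    refine wK_le_exp s (C := max C 1) hC' ?_
    filter_upwards [hge k] with j hj
    rw [hev]
    simp only [map_sub, map_sum, map_mul, map_pow, map_mv, hevA, hevY, hevX]
    have h1 := hC (θ j) (t j k) (hd j k hj).1.1
    have h2 : ‖t j k - Ch.τ (θ j)‖ ^ P ≤ T j ^ ((P : ℝ) * (-η)) := by
      rw [mul_comm, Real.rpow_mul (hTp j).le, Real.rpow_natCast]
      exact pow_le_pow_left₀ (norm_nonneg _) (hd j k hj).1.2 _
    calc _ ≤ C * ‖t j k - Ch.τ (θ j)‖ ^ P := h1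
      _ ≤ max C 1 * ‖t j k - Ch.τ (θ j)‖ ^ P := mul_le_mul_of_nonneg_right (le_max_left _ _) (by positivity)
      _ ≤ max C 1 * T j ^ ((P : ℝ) * (-η)) := mul_le_mul_of_nonneg_left h2 hC'.le
  · -- hND
    intro 𝓜
    obtain ⟨N₀, c₀, hc₀, hnd⟩ := Ch.nd 𝓜
    refine ⟨N₀, fun G => ?_⟩
    choose G' hG' using fun m => pr_surj s (G m)
    have h1 : ∀ᶠ j in s.U, ∃ p : Fin (N₀ + 1), ∀ m ∈ 𝓜, c₀ * ‖evj s j (G' m)‖ ≤
        ‖∑ m' ∈ 𝓜, evj s j (G' m') * Ch.a (θ j) m' p‖ := Eventually.of_forall fun j => by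
      obtain ⟨p, hp, hpp⟩ := hnd (θ j) (fun m => evj s j (G' m))
      exact ⟨⟨p, by omega⟩, hpp⟩
    have h2 : ∃ p : Fin (N₀ + 1), ∀ᶠ j in s.U, ∀ m ∈ 𝓜, c₀ * ‖evj s j (G' m)‖ ≤
        ‖∑ m' ∈ 𝓜, evj s j (G' m') * Ch.a (θ j) m' p‖ := by
      by_contra hne
      push Not at hne
      have h3 : ∀ p : Fin (N₀ + 1), ∀ᶠ j in s.U, ¬ ∀ m ∈ 𝓜, c₀ * ‖evj s j (G' m)‖ ≤
          ‖∑ m' ∈ 𝓜, evj s j (G' m') * Ch.a (θ j) m' p‖ := fun p => (hne p).mono fun j hj hall => by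
        obtain ⟨m, hm, hlt⟩ := hj
        exact absurd (hall m hm) (not_le.2 hlt)
      have h4 := (Filter.eventually_all.2 h3).and h1
      obtain ⟨j, hj1, p, hj2⟩ := h4.exists
      exact hj1 p hj2
    obtain ⟨p, hp⟩ := h2
    refine ⟨p, Nat.lt_succ_iff.1 p.2, fun m hm => ?_⟩
    have h0 : ∑ m' ∈ 𝓜, G m' * pr s (AA m' p) = pr s (∑ m' ∈ 𝓜, G' m' * AA m' p) := by
      simp only [map_sum, map_mul, hG']
    rw [h0, ← hG' m]
    have h5 := wK_le s (x := G' m) (y := ∑ m' ∈ 𝓜, G' m' * AA m' p) (C := c₀⁻¹) (a := 0) (inv_pos.2 hc₀) (by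
      filter_upwards [hp] with j hj
      have h6 := hj m hm
      rw [Real.rpow_zero, mul_one, hev, hev, map_sum]
      simp only [map_mul, hevA]
      rw [le_inv_mul_iff₀ hc₀]
      exact h6)
    rwa [Real.exp_zero, one_mul] at h5
  · -- hcY
    intro k i
    refine wK_le_exp s (C := 1) one_pos ?_
    filter_upwards [hge k] with j hj
    rw [one_mul, Real.rpow_natCast]
    exact (hd j k hj).2.2.2.2.1 i 0
  · -- hrel
    intro k
    have h0 : ∑ e : E, (∑ x, pr s (KAP x) * pr s (CC k (x, e))) * mv (fun i => pr s (Y (some i) k)) (e : σ →₀ ℕ) =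
        pr s (∑ e : E, (∑ x, KAP x * CC k (x, e)) * mv (fun i => Y (some i) k) (e : σ →₀ ℕ)) := by
      simp only [map_sum, map_mul, map_mv]
    rw [h0, pr_eq_zero]
    intro n
    filter_upwards [hge k, hge n] with j hj hj'
    rw [hev]
    simp only [map_sum, map_mul, map_mv, hevK, hevC, hevY]
    refine (hd j k hj).2.2.2.2.2.trans ?_
    exact inv_anti₀ (pow_pos (hTp j) _) (pow_le_pow_right₀ (hT1 j) hj')
  · -- hgood
    intro k
    by_contra hne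
    push Not at hne
    have h1 : ∀ e : E, ∀ᶠ j in s.U, ‖∑ x, κ j x * c j k (x, e) 0‖ ≤ (T j ^ B')⁻¹ := by
      intro e
      have h2 := hne e
      have h0 : ∑ x, pr s (KAP x) * pr s (CC k (x, e)) = pr s (∑ x, KAP x * CC k (x, e)) := by
        simp only [map_sum, map_mul]
      rw [h0, pr_eq_zero] at h2
      filter_upwards [h2 B'] with j hj
      rw [hev] at hj
      simpa only [map_sum, map_mul, hevK, hevC] using hj
    have h2 := (Filter.eventually_all.2 h1).and (hge k)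
    obtain ⟨j, hj1, hj2⟩ := h2.exists
    obtain ⟨hcR, ⟨e, h3⟩, hcT, -⟩ := (hd j k hj2).2.2
    exact absurd (hj1 e) (not_le.2 h3)
  · -- harith
    intro D δ N p m hm1 hm2 hdet
    have h0 : (Matrix.of fun a' l => pr s (Y none (p a')) ^ (m l).1 * cm (fun i => pr s (CC (p a') i)) (m l).2).det =
        pr s (Matrix.of fun a' l => Y none (p a') ^ (m l).1 * cm (CC (p a')) (m l).2).det := by
      rw [RingHom.map_det]
      congr 1
      ext a' l
      simp only [Matrix.of_apply, RingHom.mapMatrix_apply, Matrix.map_apply, map_mul, map_pow, map_cm]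
    have h0' : ∀ j, evj s j (Matrix.of fun a' l => Y none (p a') ^ (m l).1 * cm (CC (p a')) (m l).2).det =
        (Matrix.of fun a' l => (Ch.y (θ j) none (t j (p a'))) ^ (m l).1 * cm (fun i => c j (p a') i 0) (m l).2).det := by
      intro j
      rw [RingHom.map_det]
      congr 1
      ext a' l
      simp only [Matrix.of_apply, RingHom.mapMatrix_apply, Matrix.map_apply, map_mul, map_pow, map_cm, hevY, hevC]
    rw [h0] at hdet ⊢
    have hne : ∀ᶠ j in s.U, (Matrix.of fun a' l => (Ch.y (θ j) none (t j (p a'))) ^ (m l).1 *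
        cm (fun i => c j (p a') i 0) (m l).2).det ≠ 0 := by
      by_contra hcon'
      push Not at hcon'
      apply hdet
      rw [pr_eq_zero]
      intro n
      filter_upwards [hcon'] with j hj
      rw [hev, h0', hj, norm_zero]
      exact inv_nonneg.2 (pow_nonneg (hTp j).le _)
    rw [← Real.exp_nat_mul]
    refine wK_ge_exp s (C := ((N.factorial : ℝ) ^ g)⁻¹) (by
      have : (0 : ℝ) < N.factorial := by exact_mod_cast N.factorial_pos
      positivity) ?_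
    have hall : ∀ᶠ j in s.U, ∀ a' : Fin N, p a' ≤ j := Filter.eventually_all.2 fun a' => hge (p a')
    filter_upwards [hall, hne] with j hj hj'
    rw [hev, h0']
    have h1 : ∀ a', Ch.y (θ j) none (t j (p a')) = a j (p a') 0 / b j (p a') 0 := fun a' => (hd j (p a') (hj a')).2.1.2.2.2.2.2
    simp only [h1] at hj' ⊢
    have h2 := det_low (hR j) (hT1 j) A D δ (fun a' => a j (p a')) (fun a' => b j (p a'))
      (fun a' => (hd j (p a') (hj a')).2.1.1) (fun a' => (hd j (p a') (hj a')).2.1.2.1)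
      (fun a' => (hd j (p a') (hj a')).2.1.2.2.1) (fun a' => (hd j (p a') (hj a')).2.1.2.2.2.1)
      (fun a' => (hd j (p a') (hj a')).2.1.2.2.2.2.1) (fun a' => c j (p a'))
      (fun a' x => (hd j (p a') (hj a')).2.2.1 x) (fun a' x s' => (hd j (p a') (hj a')).2.2.2.2.1 x s') m hm1 hm2 hj'
    refine le_trans ?_ h2
    refine mul_le_mul_of_nonneg_left ?_ (by positivity)
    rw [← Real.rpow_natCast, ← Real.rpow_neg (hTp j).le]
    refine Real.rpow_le_rpow_of_exponent_le (hT1 j) ?_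
    have h3 : N * (g + 1) * (D + A * δ) ≤ N * (D + δ) * ((g + 1) * (A + 1)) := by
      have h4 : D + A * δ ≤ (D + δ) * (A + 1) := by nlinarith
      calc N * (g + 1) * (D + A * δ) ≤ N * (g + 1) * ((D + δ) * (A + 1)) := Nat.mul_le_mul_left _ h4
        _ = N * (D + δ) * ((g + 1) * (A + 1)) := by ring
    have h5 : ((N * (g + 1) * (D + A * δ) : ℕ) : ℝ) ≤ ((N * (D + δ) * ((g + 1) * (A + 1)) : ℕ) : ℝ) := by
      exact_mod_cast h3
    have h6 : ((N * (D + δ) : ℕ) : ℝ) * -(((g + 1) * (A + 1) : ℕ) : ℝ) =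
        -((N * (D + δ) * ((g + 1) * (A + 1)) : ℕ) : ℝ) := by push_cast; ring
    rw [h6]
    linarith

end Pool.Agent.H488.Z
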