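import Pool.Agent.H488.Z.Gen

/-!
# Level sets: the general theorem
-/

set_option autoImplicit false

open Filter Topology NumberField

namespace Pool.Agent.H488.Z

open Pool.Agent.R349.Gen (AdmG GoodG goodG_of_key)

/-- an approximate relation between the points of `K` with the value `a` -/
def BadAt {g : ℕ} (f : ℂ → ℂ) (K : Set ℂ) (F : Type) [Field F] [NumberField F] (ι : F →+* ℂ) (ξ : Fin g → ℂ) (d : ℕ)
    (H δ : ℝ) (a : ℂ) : Prop :=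
  ∃ P : MvPolynomial {s : ℂ // s ∈ K ∧ f s = a} ℂ, AdmG F ι ξ d H P ∧
    ∃ s₀, P.coeff s₀ ≠ 0 ∧ ‖MvPolynomial.aeval (fun s : {s : ℂ // s ∈ K ∧ f s = a} => (s : ℂ)) P‖ ≤ δ * ‖P.coeff s₀‖

theorem chart_bad {f : ℂ → ℂ} {U K : Set ℂ} {a₀ : ℂ} (c : Chart f U K a₀) (hG : Gen f U) (m g d : ℕ) (A δ : ℝ)
    (hδ : 0 < δ) :
    ∃ (B : ℝ) (C : ℕ) (T₀ : ℝ), 2 ≤ T₀ ∧ 0 ≤ B ∧ ∀ (F : Type) [Field F] [NumberField F], Module.finrank ℚ F ≤ m →
      ∀ (ι : F →+* ℂ) (ξ : Fin g → ℂ) (T : ℝ), T₀ ≤ T → ∀ Y : Finset F,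
        (∀ x ∈ Y, ‖ι x - a₀‖ ≤ c.r ^ c.e ∧ Y120.HtLe F T x ∧ BadAt f K F ι ξ d (T ^ A) (T ^ (-B)) (ι x)) →
        (∀ x ∈ Y, ∀ y ∈ Y, ‖ι x - ι y‖ ≤ T ^ (-δ)) → Y.card ≤ C := by
  classical
  have := c.fin
  have he : (0 : ℝ) < c.e := by exact_mod_cast c.he
  obtain ⟨B, C, T₀, hT₀, hB, H⟩ := curveNF m g d c.y (Metric.closedBall (0 : ℂ) c.r) (isCompact_closedBall _ _)
    (fun i t ht => c.y_an i t ht) (fun t ht => c.locP hG t ht) A (δ / c.e) (by positivity)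
  refine ⟨B, C, T₀, hT₀, hB, fun F _ _ hm ι ξ T hT Y hY hYd => ?_⟩
  have hTp : 0 < T := by linarith
  rcases Y.eq_empty_or_nonempty with rfl | ⟨y₀, hy₀⟩
  · simp
  have hroot : ∀ x ∈ Y, ∀ w : ℂ, w ^ c.e = ι x - a₀ → w ∈ Metric.closedBall (0 : ℂ) c.r := by
    intro x hx w hw
    have h1 := (hY x hx).1
    rw [← hw, norm_pow] at h1
    rw [Metric.mem_closedBall, dist_zero_right]
    exact (pow_le_pow_iff_left₀ (norm_nonneg _) c.hr.le c.he.ne').1 h1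
  obtain ⟨w₀, hw₀⟩ := IsAlgClosed.exists_pow_nat_eq (ι y₀ - a₀) c.he
  have h1 : ∀ x : F, ∃ w : ℂ, w ^ c.e = ι x - a₀ ∧ ‖w - w₀‖ ^ c.e ≤ ‖ι x - ι y₀‖ := by
    intro x
    obtain ⟨w, hw⟩ := IsAlgClosed.exists_pow_nat_eq (ι x - a₀) c.he
    obtain ⟨ζ, hζ, hle⟩ := near_root c.e c.he w w₀
    refine ⟨ζ * w, by rw [mul_pow, hζ, one_mul, hw], hle.trans (le_of_eq ?_)⟩
    rw [hw, hw₀]
    congr 1
    ring
  choose w hw hwd using h1
  refine H F hm ι ξ T hT w₀ (hroot y₀ hy₀ w₀ hw₀) Y w fun x hx => ?_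
  obtain ⟨h2, h3, P, ⟨hPd, hPc⟩, s₀, hs₀, hs⟩ := hY x hx
  refine ⟨?_, ?_, h3, ?_⟩
  · have h4 : ‖w x - w₀‖ ^ c.e ≤ (T ^ (-(δ / c.e))) ^ c.e := by
      rw [← Real.rpow_natCast (T ^ (-(δ / c.e))), ← Real.rpow_mul hTp.le]
      have h5 : -(δ / c.e) * (c.e : ℝ) = -δ := by field_simp
      rw [h5]
      exact (hwd x).trans (hYd x hx y₀ hy₀)
    exact (pow_le_pow_iff_left₀ (norm_nonneg _) (by positivity) c.he.ne').1 h4
  · change a₀ + w x ^ c.e = ι x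
    rw [hw, add_sub_cancel]
  · have hwb := hroot x hx (w x) (hw x)
    have hcov : ∀ s : {s : ℂ // s ∈ K ∧ f s = ι x}, ∃ i, c.f i (w x) = s := fun s =>
      c.cov s s.2.1 (w x) hwb (by rw [s.2.2, hw, add_sub_cancel])
    choose j hj using hcov
    have hji : Function.Injective j := by
      intro s s' h
      apply Subtype.ext
      rw [← hj s, ← hj s', h]
    refine ⟨MvPolynomial.rename j P, fun i => ?_, fun t => ?_, Finsupp.mapDomain j s₀, ?_, ?_⟩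
    · rw [MvPolynomial.degreeOf_le_iff]
      intro t ht
      rw [MvPolynomial.mem_support_iff] at ht
      obtain ⟨u, rfl, hu⟩ := MvPolynomial.coeff_rename_ne_zero _ _ _ ht
      by_cases hi : ∃ s, j s = i
      · obtain ⟨s, rfl⟩ := hi
        rw [Finsupp.mapDomain_apply hji]
        exact (MvPolynomial.monomial_le_degreeOf s (MvPolynomial.mem_support_iff.2 hu)).trans (hPd s)
      · rw [Finsupp.mapDomain_of_notMem_range]
        · exact Nat.zero_le _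
        rintro ⟨s, hs⟩
        exact hi ⟨s, hs⟩
    · by_cases ht : ∃ u, Finsupp.mapDomain j u = t
      · obtain ⟨u, rfl⟩ := ht
        rw [MvPolynomial.coeff_rename_mapDomain _ hji]
        exact hPc u
      · refine ⟨0, fun i φ => ?_, ?_⟩
        · simp only [Pi.zero_apply, map_zero, norm_zero]
          positivity
        · rw [MvPolynomial.coeff_rename_eq_zero]
          · simp
          · intro u hu
            exact absurd ⟨u, hu⟩ ht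
    · rw [MvPolynomial.coeff_rename_mapDomain _ hji]
      exact hs₀
    · rw [MvPolynomial.coeff_rename_mapDomain _ hji, MvPolynomial.aeval_rename]
      have h5 : (fun i => c.y (some i) (w x)) ∘ j = fun s : {s : ℂ // s ∈ K ∧ f s = ι x} => (s : ℂ) := by
        funext s
        exact hj s
      rw [h5]
      exact hs

theorem BadAt.mono {g : ℕ} {f : ℂ → ℂ} {K : Set ℂ} {F : Type} [Field F] [NumberField F] {ι : F →+* ℂ}
    {ξ : Fin g → ℂ} {d : ℕ} {H δ δ' : ℝ} {a : ℂ} (hd : δ ≤ δ') (h : BadAt f K F ι ξ d H δ a) :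
    BadAt f K F ι ξ d H δ' a := by
  obtain ⟨P, hP, s₀, hs₀, hs⟩ := h
  exact ⟨P, hP, s₀, hs₀, hs.trans (mul_le_mul_of_nonneg_right hd (norm_nonneg _))⟩

/-- The general theorem on the points of a compact set with an algebraic value. -/
theorem level_bad {f : ℂ → ℂ} {U K : Set ℂ} (hU : IsOpen U) (hf : ∀ z ∈ U, AnalyticAt ℂ f z)
    (hnc : ∀ z ∈ U, ¬ ∀ᶠ s in 𝓝 z, f s = f z) (hG : Gen f U) (hK : IsCompact K) (hKU : K ⊆ U) (m g d : ℕ) (A δ : ℝ)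
    (hδ : 0 < δ) :
    ∃ (B : ℝ) (C : ℕ) (T₀ : ℝ), 2 ≤ T₀ ∧ 0 ≤ B ∧ ∀ (F : Type) [Field F] [NumberField F], Module.finrank ℚ F ≤ m →
      ∀ (ι : F →+* ℂ) (ξ : Fin g → ℂ) (T : ℝ), T₀ ≤ T → ∀ Y : Finset F,
        (∀ x ∈ Y, Y120.HtLe F T x ∧ BadAt f K F ι ξ d (T ^ A) (T ^ (-B)) (ι x)) →
        (∀ x ∈ Y, ∀ y ∈ Y, ‖ι x - ι y‖ ≤ T ^ (-δ)) → Y.card ≤ C := by
  classical
  have hc : ∀ a : ℂ, Nonempty (Chart f U K a) := fun a => exists_chart hU hf hnc hK hKU a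
  let c : ∀ a : ℂ, Chart f U K a := fun a => (hc a).some
  have hcb := fun a => chart_bad (c a) hG m g d A δ hδ
  choose B C T₀ hT₀ hB H using hcb
  have hR : ∀ a, 0 < (c a).r ^ (c a).e := fun a => pow_pos (c a).hr _
  have hcomp : IsCompact (f '' K) := hK.image_of_continuousOn fun z hz => (hf z (hKU hz)).continuousAt.continuousWithinAt
  obtain ⟨t, ht, hcov⟩ := hcomp.elim_nhds_subcover (fun a => Metric.ball a ((c a).r ^ (c a).e / 2))
    (fun a _ => Metric.ball_mem_nhds _ (half_pos (hR a)))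
  obtain ⟨ρ, hρ, hle⟩ : ∃ ρ : ℝ, 0 < ρ ∧ ∀ a ∈ t, ρ ≤ (c a).r ^ (c a).e / 2 := by
    rcases t.eq_empty_or_nonempty with h | h
    · exact ⟨1, one_pos, fun a ha => by rw [h] at ha; exact absurd ha (Finset.notMem_empty a)⟩
    · obtain ⟨a₁, ha₁, hmin⟩ := Finset.exists_min_image t (fun a => (c a).r ^ (c a).e / 2) h
      exact ⟨_, half_pos (hR a₁), hmin⟩
  have hS1 : ∀ a ∈ t, B a ≤ ∑ a ∈ t, B a := fun a ha => Finset.single_le_sum (fun a _ => hB a) ha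
  have hS2 : ∀ a ∈ t, C a ≤ ∑ a ∈ t, C a := fun a ha => Finset.single_le_sum (fun a _ => Nat.zero_le _) ha
  have hS3 : ∀ a ∈ t, T₀ a ≤ ∑ a ∈ t, T₀ a := fun a ha =>
    Finset.single_le_sum (fun a _ => by linarith [hT₀ a]) ha
  have hB0 : 0 ≤ ∑ a ∈ t, B a := Finset.sum_nonneg fun a _ => hB a
  have hT00 : 0 ≤ ∑ a ∈ t, T₀ a := Finset.sum_nonneg fun a _ => by linarith [hT₀ a]
  refine ⟨∑ a ∈ t, B a + 1, ∑ a ∈ t, C a, max (2 + ∑ a ∈ t, T₀ a) (ρ⁻¹ ^ (1 / δ)), le_max_of_le_left (by linarith),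
    by linarith, fun F _ _ hm ι ξ T hT Y hY hYd => ?_⟩
  have hT1 : 2 + ∑ a ∈ t, T₀ a ≤ T := (le_max_left _ _).trans hT
  have hT2 : ρ⁻¹ ^ (1 / δ) ≤ T := (le_max_right _ _).trans hT
  have hTp : 0 < T := by linarith
  have hTρ : T ^ (-δ) ≤ ρ := by
    have h1 : ρ⁻¹ ≤ T ^ δ := by
      calc ρ⁻¹ = (ρ⁻¹ ^ (1 / δ)) ^ δ := by
            rw [← Real.rpow_mul (inv_pos.2 hρ).le]
            have : 1 / δ * δ = 1 := by field_simp
            rw [this, Real.rpow_one]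
        _ ≤ T ^ δ := Real.rpow_le_rpow (by positivity) hT2 hδ.le
    rw [Real.rpow_neg hTp.le, inv_le_comm₀ (Real.rpow_pos_of_pos hTp _) hρ]
    exact h1
  rcases Y.eq_empty_or_nonempty with rfl | ⟨y₀, hy₀⟩
  · simp
  have hpos : T ^ (-(∑ a ∈ t, B a + 1)) < 1 := Real.rpow_lt_one_of_one_lt_of_neg (by linarith) (by linarith)
  have hmem : ι y₀ ∈ f '' K := by
    by_contra hcon
    obtain ⟨P, -, s₀, hs₀, hs⟩ := (hY y₀ hy₀).2
    have hemp : IsEmpty {s : ℂ // s ∈ K ∧ f s = ι y₀} := ⟨fun s => hcon ⟨s, s.2.1, s.2.2⟩⟩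
    have h1 : s₀ = 0 := Subsingleton.elim _ _
    have h2 : MvPolynomial.aeval (fun s : {s : ℂ // s ∈ K ∧ f s = ι y₀} => (s : ℂ)) P = P.coeff s₀ := by
      conv_lhs => rw [MvPolynomial.eq_C_of_isEmpty P]
      rw [h1, MvPolynomial.aeval_C]
      rfl
    rw [h2] at hs
    have h3 : 0 < ‖P.coeff s₀‖ := norm_pos_iff.2 hs₀
    have h4 : T ^ (-(∑ a ∈ t, B a + 1)) * ‖P.coeff s₀‖ < 1 * ‖P.coeff s₀‖ := mul_lt_mul_of_pos_right hpos h3
    rw [one_mul] at h4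
    exact absurd hs (not_le.2 h4)
  have h1 := hcov hmem
  rw [Set.mem_iUnion₂] at h1
  obtain ⟨a, ha, hya⟩ := h1
  have hya' : ‖ι y₀ - a‖ < (c a).r ^ (c a).e / 2 := by
    rw [← dist_eq_norm]
    exact hya
  refine (H a F hm ι ξ T ?_ Y (fun x hx => ⟨?_, (hY x hx).1, ?_⟩) hYd).trans (hS2 a ha)
  · have := hS3 a ha
    linarith
  · have h2 := hYd x hx y₀ hy₀
    have h3 := hle a ha
    calc ‖ι x - a‖ = ‖(ι x - ι y₀) + (ι y₀ - a)‖ := by congr 1; ring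
      _ ≤ ‖ι x - ι y₀‖ + ‖ι y₀ - a‖ := norm_add_le _ _
      _ ≤ (c a).r ^ (c a).e := by linarith
  · refine (hY x hx).2.mono ?_
    refine Real.rpow_le_rpow_of_exponent_le (by linarith) ?_
    have := hS1 a ha
    linarith

end Pool.Agent.H488.Z
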