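import Pool.Agent.H488.Z.Charts
import Pool.Graph.R_seed8.R349.Generic

/-!
# Parametrized curves: exceptional points over number fields of bounded degree
-/

set_option autoImplicit false

open Filter Topology NumberField

namespace Pool.Agent.H488.Z

open Pool.Agent.Y120 (mv NormRing Pt)
open Pool.Agent.R349 (relK_one)
open Pool.Agent in
/-- Let the curve `f` be analytic on the compact set `L`, with coordinates which are algebraically independent near each point.
In discs of radius `T ^ (-η)` of the parameter plane there is a bounded number of points with first coordinate in a number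
field and of height at most `T` at which the other coordinates satisfy an approximate relation. -/
theorem curveNF {κ : Type} [Fintype κ] [DecidableEq κ] (m g d : ℕ) (f : Option κ → ℂ → ℂ) (L : Set ℂ) (hL : IsCompact L)
    (han : ∀ i, ∀ t ∈ L, AnalyticAt ℂ (f i) t) (hind : ∀ t ∈ L, LocP f t) (A η : ℝ) (hη : 0 < η) :
    ∃ (B : ℝ) (C : ℕ) (T₀ : ℝ), 2 ≤ T₀ ∧ 0 ≤ B ∧ ∀ (F : Type) [Field F] [NumberField F], Module.finrank ℚ F ≤ m →
      ∀ (ι : F →+* ℂ) (ξ : Fin g → ℂ) (T : ℝ), T₀ ≤ T → ∀ θ ∈ L, ∀ (Y : Finset F) (w : F → ℂ),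
        (∀ x ∈ Y, ‖w x - θ‖ ≤ T ^ (-η) ∧ f none (w x) = ι x ∧ Y120.HtLe F T x ∧
          ∃ P : MvPolynomial κ ℂ, (∀ x, P.degreeOf x ≤ d) ∧
          (∀ s, ∃ c : Fin g → 𝓞 F, (∀ i (φ : F →+* ℂ), ‖φ (c i : F)‖ ≤ T ^ A) ∧ P.coeff s = ∑ i, ξ i * ι (c i : F)) ∧
          ∃ s₀, P.coeff s₀ ≠ 0 ∧ ‖MvPolynomial.aeval (fun i => f (some i) (w x)) P‖ ≤ T ^ (-B) * ‖P.coeff s₀‖) →
        Y.card ≤ C := by
  classical
  have hg := fun g' : ℕ => ballsP g' f L hL han hind (Fin g) d A η hη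
  choose B C T2 hT2 H using hg
  refine ⟨∑ g ∈ Finset.range m, |B g|, ∑ g ∈ Finset.range m, C g, 2 + ∑ g ∈ Finset.range m, T2 g, ?_,
    Finset.sum_nonneg fun _ _ => abs_nonneg _, ?_⟩
  · have : 0 ≤ ∑ g ∈ Finset.range m, T2 g := Finset.sum_nonneg fun g _ => by linarith [hT2 g]
    linarith
  intro K _ _ hm io ξ T hT θ hθ Y w hY
  set g' := Y120.gK K with hg'
  have hgm : g' ∈ Finset.range m := Finset.mem_range.2 (Y124.gK_lt K hm)
  have hTT : T2 g' ≤ T := by
    have h1 := Finset.single_le_sum (f := T2) (fun g _ => by linarith [hT2 g]) hgm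
    linarith
  have hBB : B g' ≤ ∑ g ∈ Finset.range m, |B g| :=
    (le_abs_self _).trans (Finset.single_le_sum (f := fun g => |B g|) (fun g _ => abs_nonneg _) hgm)
  have hCC : C g' ≤ ∑ g ∈ Finset.range m, C g := Finset.single_le_sum (f := C) (fun g _ => Nat.zero_le _) hgm
  have hT1 : 1 ≤ T := by linarith [hT2 g']
  have hinj : Set.InjOn w Y := by
    intro x hx x' hx' h
    have h1 := (hY x hx).2.1
    have h2 := (hY x' hx').2.1
    rw [h, h2] at h1
    exact (io.injective h1).symm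
  have h1 := H g' T hTT (Y120.RK K io) (Y120.RK_norm K io) ξ θ hθ (Y.image w) (by
    intro t ht t' ht' h
    obtain ⟨x, hx, rfl⟩ := Finset.mem_image.1 ht
    obtain ⟨x', hx', rfl⟩ := Finset.mem_image.1 ht'
    rw [(hY x hx).2.1, (hY x' hx').2.1] at h
    rw [io.injective h]) (by
    intro t ht
    obtain ⟨x, hx, rfl⟩ := Finset.mem_image.1 ht
    obtain ⟨h1, h0, h2, P, hPd, hPc, s₀, hs₀, hs⟩ := hY x hx
    refine ⟨h1, ?_, ?_⟩
    · rw [h0]
      exact Y120.Pt_of_HtLe K io h2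
    refine Y124.RelR_mono (Real.rpow_le_rpow_of_exponent_le hT1 (neg_le_neg hBB)) ?_
    refine Y124.RelR_of_RelK K io ξ _ _ _ ?_
    exact relK_one K io ξ (fun i => f (some i) (w x)) _ _ P hPd hPc s₀ hs₀ hs)
  rw [Finset.card_image_of_injOn hinj] at h1
  exact h1.trans hCC

end Pool.Agent.H488.Z
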