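import Pool.Agent.H488.Z.Main

/-!
# Level sets at real values: real and imaginary parts of the points
-/

set_option autoImplicit false

open Filter Topology NumberField

namespace Pool.Agent.H488.Z

open Pool.Agent.R349.Gen (AdmG GoodG goodG_of_key)
open MvPolynomial (X C)

theorem adm_rename {σ τ : Type} {g : ℕ} (F : Type) [Field F] [NumberField F] (ι : F →+* ℂ) (ξ : Fin g → ℂ) (d : ℕ)
    (H : ℝ) (hH : 0 ≤ H) (j : σ → τ) (hj : Function.Injective j) (P : MvPolynomial σ ℂ) (hP : AdmG F ι ξ d H P) :
    AdmG F ι ξ d H (MvPolynomial.rename j P) := by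
  classical
  refine ⟨fun i => ?_, fun t => ?_⟩
  · rw [MvPolynomial.degreeOf_le_iff]
    intro t ht
    rw [MvPolynomial.mem_support_iff] at ht
    obtain ⟨u, rfl, hu⟩ := MvPolynomial.coeff_rename_ne_zero _ _ _ ht
    by_cases hi : ∃ s, j s = i
    · obtain ⟨s, rfl⟩ := hi
      rw [Finsupp.mapDomain_apply hj]
      exact (MvPolynomial.monomial_le_degreeOf s (MvPolynomial.mem_support_iff.2 hu)).trans (hP.1 s)
    · rw [Finsupp.mapDomain_of_notMem_range]
      · exact Nat.zero_le _
      rintro ⟨s, hs⟩
      exact hi ⟨s, hs⟩
  · by_cases ht : ∃ u, Finsupp.mapDomain j u = t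
    · obtain ⟨u, rfl⟩ := ht
      rw [MvPolynomial.coeff_rename_mapDomain _ hj]
      exact hP.2 u
    · refine ⟨0, fun i φ => ?_, ?_⟩
      · simpa using hH
      · rw [MvPolynomial.coeff_rename_eq_zero]
        · simp
        · intro u hu
          exact absurd ⟨u, hu⟩ ht

/-- real and imaginary part, from a point and its conjugate -/
noncomputable def ri (b : Bool) (s s' : ℂ) : ℂ := if b then (s + s') / 2 else (s - s') / (2 * Complex.I)

/-- the real or the imaginary part -/
noncomputable def part (b : Bool) (s : ℂ) : ℂ := ((if b then s.re else s.im : ℝ) : ℂ)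

theorem ri_conj (b : Bool) (s : ℂ) : ri b s ((starRingEnd ℂ) s) = part b s := by
  unfold ri part
  cases b
  · simp only [Bool.false_eq_true, if_false]
    rw [Complex.sub_conj]
    have : (2 : ℂ) * Complex.I ≠ 0 := by simp
    push_cast
    field_simp
  · simp only [if_true]
    rw [Complex.add_conj]
    push_cast
    ring

/-- the curve of the real and imaginary parts, for a pattern `p` -/
noncomputable def Chart.yr {f : ℂ → ℂ} {U K : Set ℂ} {a₀ : ℂ} (c : Chart f U K a₀) {n : ℕ} (p : Fin n × Bool ↪ c.κ)
    (o : Option (Fin n × Bool)) (w : ℂ) : ℂ :=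
  o.elim (a₀ + w ^ c.e) fun z => ri z.2 (c.f (p (z.1, true)) w) (c.f (p (z.1, false)) w)

theorem Chart.yr_an {f : ℂ → ℂ} {U K : Set ℂ} {a₀ : ℂ} (c : Chart f U K a₀) {n : ℕ} (p : Fin n × Bool ↪ c.κ)
    (o : Option (Fin n × Bool)) (w : ℂ) (hw : w ∈ Metric.closedBall (0 : ℂ) c.r) : AnalyticAt ℂ (c.yr p o) w := by
  rcases o with _ | ⟨k, b⟩
  · exact analyticAt_const.add (analyticAt_id.pow _)
  · cases b
    · have h1 : c.yr p (some (k, false)) = fun w => (c.f (p (k, true)) w - c.f (p (k, false)) w) / (2 * Complex.I) := by
        funext w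
        simp [Chart.yr, ri]
      rw [h1]
      exact ((c.an _ w hw).sub (c.an _ w hw)).div_const
    · have h1 : c.yr p (some (k, true)) = fun w => (c.f (p (k, true)) w + c.f (p (k, false)) w) / 2 := by
        funext w
        simp [Chart.yr, ri]
      rw [h1]
      exact ((c.an _ w hw).add (c.an _ w hw)).div_const

theorem Chart.yr_locP {f : ℂ → ℂ} {U K : Set ℂ} {a₀ : ℂ} (c : Chart f U K a₀) (hG : Gen f U) {n : ℕ}
    (p : Fin n × Bool ↪ c.κ) (t : ℂ) (ht : t ∈ Metric.closedBall (0 : ℂ) c.r) : LocP (c.yr p) t := by
  classical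
  intro P hP
  -- the substitution
  let sb : Option (Fin n × Bool) → MvPolynomial (Option c.κ) ℂ := fun o => o.elim (X none) fun z =>
    if z.2 then C (1 / 2) * (X (some (p (z.1, true))) + X (some (p (z.1, false))))
    else C (1 / (2 * Complex.I)) * (X (some (p (z.1, true))) - X (some (p (z.1, false))))
  let θ : MvPolynomial (Option (Fin n × Bool)) ℂ →ₐ[ℂ] MvPolynomial (Option c.κ) ℂ := MvPolynomial.aeval sb
  let bk : Option c.κ → MvPolynomial (Option (Fin n × Bool)) ℂ := fun o => o.elim (X none)
    (Function.extend p (fun z => if z.2 then X (some (z.1, true)) + C Complex.I * X (some (z.1, false))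
      else X (some (z.1, true)) - C Complex.I * X (some (z.1, false))) 0)
  let η : MvPolynomial (Option c.κ) ℂ →ₐ[ℂ] MvPolynomial (Option (Fin n × Bool)) ℂ := MvPolynomial.aeval bk
  have hbk : ∀ z, bk (some (p z)) = if z.2 then X (some (z.1, true)) + C Complex.I * X (some (z.1, false))
      else X (some (z.1, true)) - C Complex.I * X (some (z.1, false)) := by
    intro z
    change Function.extend p (fun z : Fin n × Bool => if z.2 then X (some (z.1, true)) + C Complex.I * X (some (z.1, false))
      else X (some (z.1, true)) - C Complex.I * X (some (z.1, false))) 0 (p z) = _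
    rw [p.injective.extend_apply]
  have hI : (2 : ℂ) * Complex.I ≠ 0 := by simp
  have hcomp : η.comp θ = AlgHom.id ℂ _ := by
    apply MvPolynomial.algHom_ext
    rintro (_ | ⟨k, b⟩)
    · simp only [AlgHom.comp_apply, θ, η, MvPolynomial.aeval_X, AlgHom.id_apply, sb, bk, Option.elim_none]
    · have e1 := hbk (k, true)
      have e2 := hbk (k, false)
      simp only [if_true, Bool.false_eq_true, if_false] at e1 e2
      cases b
      · have h2 : η (sb (some (k, false))) = X (some (k, false)) := by
          simp only [sb, Option.elim_some, Bool.false_eq_true, if_false, map_mul, map_sub, η, MvPolynomial.aeval_X,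
            MvPolynomial.algHom_C, MvPolynomial.algebraMap_eq]
          rw [e1, e2]
          have h3 : (X (some (k, true)) + C Complex.I * X (some (k, false)) -
              (X (some (k, true)) - C Complex.I * X (some (k, false))) : MvPolynomial (Option (Fin n × Bool)) ℂ) =
              C (2 * Complex.I) * X (some (k, false)) := by
            rw [C.map_mul]
            simp only [map_ofNat]
            ring
          rw [h3, ← mul_assoc, ← C.map_mul, one_div_mul_cancel hI, C.map_one, one_mul]
        simpa [AlgHom.comp_apply, θ, MvPolynomial.aeval_X] using h2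
      · have h2 : η (sb (some (k, true))) = X (some (k, true)) := by
          simp only [sb, Option.elim_some, if_true, map_mul, map_add, η, MvPolynomial.aeval_X,
            MvPolynomial.algHom_C, MvPolynomial.algebraMap_eq]
          rw [e1, e2]
          have h3 : (X (some (k, true)) + C Complex.I * X (some (k, false)) +
              (X (some (k, true)) - C Complex.I * X (some (k, false))) : MvPolynomial (Option (Fin n × Bool)) ℂ) =
              C 2 * X (some (k, true)) := by
            simp only [map_ofNat]
            ring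
          rw [h3, ← mul_assoc, ← C.map_mul, one_div_mul_cancel (by norm_num), C.map_one, one_mul]
        simpa [AlgHom.comp_apply, θ, MvPolynomial.aeval_X] using h2
  have h1 : θ P = 0 := by
    refine c.locP hG t ht (θ P) ?_
    filter_upwards [hP] with w hw
    have h2 : MvPolynomial.eval (fun o => c.y o w) (θ P) = MvPolynomial.eval (fun o => c.yr p o w) P := by
      have h3 : (MvPolynomial.eval (fun o => c.y o w)).comp (θ : MvPolynomial (Option (Fin n × Bool)) ℂ →+* _) =
          MvPolynomial.eval (fun o => c.yr p o w) := by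
        apply MvPolynomial.ringHom_ext
        · intro r
          simp [θ]
        · rintro (_ | ⟨k, b⟩)
          · simp [θ, sb, Chart.y, Chart.yr]
          · cases b
            · simp only [RingHom.comp_apply, RingHom.coe_coe, θ, MvPolynomial.aeval_X, sb, Option.elim_some,
                Bool.false_eq_true, if_false, map_mul, map_sub, MvPolynomial.eval_C, MvPolynomial.eval_X, Chart.y,
                Chart.yr, ri]
              ring
            · simp only [RingHom.comp_apply, RingHom.coe_coe, θ, MvPolynomial.aeval_X, sb, Option.elim_some,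
                if_true, map_mul, map_add, MvPolynomial.eval_C, MvPolynomial.eval_X, Chart.y,
                Chart.yr, ri]
              ring
      exact RingHom.congr_fun h3 P
    rw [h2]
    exact hw
  have h2 : η (θ P) = P := DFunLike.congr_fun hcomp P
  rw [← h2, h1, map_zero]

/-- an approximate relation between the real and imaginary parts of the points of `K` with the value `a` -/
def BadR {g : ℕ} (f : ℂ → ℂ) (K : Set ℂ) (F : Type) [Field F] [NumberField F] (ι : F →+* ℂ) (ξ : Fin g → ℂ) (d : ℕ)
    (H δ : ℝ) (a : ℂ) : Prop :=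
  ∃ P : MvPolynomial ({s : ℂ // s ∈ K ∧ f s = a} × Bool) ℂ, AdmG F ι ξ d H P ∧
    ∃ s₀, P.coeff s₀ ≠ 0 ∧
      ‖MvPolynomial.aeval (fun z : {s : ℂ // s ∈ K ∧ f s = a} × Bool => part z.2 z.1) P‖ ≤ δ * ‖P.coeff s₀‖

end Pool.Agent.H488.Z
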