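import Pool.Agent.H488.Z.RealLev

/-!
# Level sets at real values: the general theorem
-/

set_option autoImplicit false

open Filter Topology NumberField

namespace Pool.Agent.H488.Z

open Pool.Agent.R349.Gen (AdmG GoodG goodG_of_key)

theorem chart_real {f : ℂ → ℂ} {U K K' : Set ℂ} {a₀ : ℂ} (c : Chart f U K' a₀) (hG : Gen f U)
    (hK : ∀ s ∈ K, 0 < s.im) (hKK : ∀ s ∈ K, s ∈ K' ∧ (starRingEnd ℂ) s ∈ K') (m g d : ℕ) (A δ : ℝ) (hδ : 0 < δ) :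
    ∃ (B : ℝ) (C : ℕ) (T₀ : ℝ), 2 ≤ T₀ ∧ 0 ≤ B ∧ ∀ (F : Type) [Field F] [NumberField F], Module.finrank ℚ F ≤ m →
      ∀ (ι : F →+* ℂ) (ξ : Fin g → ℂ) (T : ℝ), T₀ ≤ T → ∀ Y : Finset F,
        (∀ x ∈ Y, ‖ι x - a₀‖ ≤ c.r ^ c.e ∧ Y120.HtLe F T x ∧ (∀ s ∈ K, f s = ι x → f ((starRingEnd ℂ) s) = ι x) ∧
          BadR f K F ι ξ d (T ^ A) (T ^ (-B)) (ι x)) →
        (∀ x ∈ Y, ∀ y ∈ Y, ‖ι x - ι y‖ ≤ T ^ (-δ)) → Y.card ≤ C := by
  classical
  have := c.fin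
  have := c.dec
  have he : (0 : ℝ) < c.e := by exact_mod_cast c.he
  have hcv := fun q : Σ n : Fin (Fintype.card c.κ + 1), (Fin n × Bool ↪ c.κ) =>
    curveNF m g d (c.yr q.2) (Metric.closedBall (0 : ℂ) c.r) (isCompact_closedBall _ _)
      (fun i t ht => c.yr_an q.2 i t ht) (fun t ht => c.yr_locP hG q.2 t ht) A (δ / c.e) (by positivity)
  choose B C T₀ hT₀ hB H using hcv
  refine ⟨∑ q, B q, ∑ q, C q, 2 + ∑ q, T₀ q, ?_, Finset.sum_nonneg fun q _ => hB q,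
    fun F _ _ hm ι ξ T hT Y hY hYd => ?_⟩
  · have : 0 ≤ ∑ q, T₀ q := Finset.sum_nonneg fun q _ => by linarith [hT₀ q]
    linarith
  have hTq : ∀ q, T₀ q ≤ T := by
    intro q
    have := Finset.single_le_sum (f := T₀) (fun q _ => by linarith [hT₀ q]) (Finset.mem_univ q)
    linarith
  have hT2 : 2 ≤ T := by
    have : 0 ≤ ∑ q, T₀ q := Finset.sum_nonneg fun q _ => by linarith [hT₀ q]
    linarith
  have hTp : 0 < T := by linarith
  rcases Y.eq_empty_or_nonempty with rfl | ⟨y₀, hy₀⟩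
  · simp
  have hroot : ∀ x ∈ Y, ∀ w : ℂ, w ^ c.e = ι x - a₀ → w ∈ Metric.closedBall (0 : ℂ) c.r := by
    intro x hx w hw
    have h1 := (hY x hx).1
    rw [← hw, norm_pow] at h1
    rw [Metric.mem_closedBall, dist_zero_right]
    exact (pow_le_pow_iff_left₀ (norm_nonneg _) c.hr.le c.he.ne').1 h1
  obtain ⟨w₀, hw₀⟩ := IsAlgClosed.exists_pow_nat_eq (ι y₀ - a₀) c.he
  have h1 : ∀ x : F, ∃ w : ℂ, w ^ c.e = ι x - a₀ ∧ ‖w - w₀‖ ^ c.e ≤ ‖ι x - ι y₀‖ := by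
    intro x
    obtain ⟨w, hw⟩ := IsAlgClosed.exists_pow_nat_eq (ι x - a₀) c.he
    obtain ⟨ζ, hζ, hle⟩ := near_root c.e c.he w w₀
    refine ⟨ζ * w, by rw [mul_pow, hζ, one_mul, hw], hle.trans (le_of_eq ?_)⟩
    rw [hw, hw₀]
    congr 1
    ring
  choose w hw hwd using h1
  -- the patterns
  have hmatch : ∀ x ∈ Y, ∃ q : Σ n : Fin (Fintype.card c.κ + 1), (Fin n × Bool ↪ c.κ),
      ∃ e : {s : ℂ // s ∈ K ∧ f s = ι x} ≃ Fin q.1, ∀ s, c.f (q.2 (e s, true)) (w x) = s ∧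
        c.f (q.2 (e s, false)) (w x) = (starRingEnd ℂ) s := by
    intro x hx
    have hwb := hroot x hx (w x) (hw x)
    have hcov1 : ∀ s : {s : ℂ // s ∈ K ∧ f s = ι x}, ∃ i, c.f i (w x) = s := fun s =>
      c.cov s (hKK s s.2.1).1 (w x) hwb (by rw [s.2.2, hw, add_sub_cancel])
    have hcov2 : ∀ s : {s : ℂ // s ∈ K ∧ f s = ι x}, ∃ i, c.f i (w x) = (starRingEnd ℂ) (s : ℂ) := fun s =>
      c.cov _ (hKK s s.2.1).2 (w x) hwb (by rw [(hY x hx).2.2.1 s s.2.1 s.2.2, hw, add_sub_cancel])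
    choose j1 hj1 using hcov1
    choose j2 hj2 using hcov2
    have hi1 : Function.Injective j1 := by
      intro s s' h
      apply Subtype.ext
      rw [← hj1 s, ← hj1 s', h]
    have hi2 : Function.Injective j2 := by
      intro s s' h
      have h2 : (starRingEnd ℂ) (s : ℂ) = (starRingEnd ℂ) (s' : ℂ) := by rw [← hj2 s, ← hj2 s', h]
      exact Subtype.ext ((starRingEnd ℂ).injective h2)
    have hi3 : ∀ s s', j1 s ≠ j2 s' := by
      intro s s' h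
      have h2 : (s : ℂ) = (starRingEnd ℂ) (s' : ℂ) := by rw [← hj1 s, ← hj2 s', h]
      have h3 := hK s s.2.1
      have h4 := hK s' s'.2.1
      rw [h2, Complex.conj_im] at h3
      linarith
    have hfin : Fintype {s : ℂ // s ∈ K ∧ f s = ι x} := Fintype.ofInjective j1 hi1
    have hcard : Fintype.card {s : ℂ // s ∈ K ∧ f s = ι x} < Fintype.card c.κ + 1 :=
      Nat.lt_succ_of_le (Fintype.card_le_of_injective j1 hi1)
    let e := Fintype.equivFin {s : ℂ // s ∈ K ∧ f s = ι x}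
    refine ⟨⟨⟨_, hcard⟩, ⟨fun z => if z.2 then j1 (e.symm z.1) else j2 (e.symm z.1), ?_⟩⟩, e, fun s => ⟨?_, ?_⟩⟩
    · rintro ⟨k, b⟩ ⟨k', b'⟩ h
      cases b <;> cases b' <;> simp only [Bool.false_eq_true, if_false, if_true] at h
      · rw [e.symm.injective (hi2 h)]
      · exact absurd h.symm (hi3 _ _)
      · exact absurd h (hi3 _ _)
      · rw [e.symm.injective (hi1 h)]
    · change c.f (if true then j1 (e.symm (e s)) else j2 (e.symm (e s))) (w x) = s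
      rw [if_pos rfl, e.symm_apply_apply]
      exact hj1 s
    · change c.f (if false then j1 (e.symm (e s)) else j2 (e.symm (e s))) (w x) = _
      rw [if_neg (by simp), e.symm_apply_apply]
      exact hj2 s
  set Yq : (Σ n : Fin (Fintype.card c.κ + 1), (Fin n × Bool ↪ c.κ)) → Finset F := fun q => Y.filter fun x =>
    ∃ e : {s : ℂ // s ∈ K ∧ f s = ι x} ≃ Fin q.1, ∀ s, c.f (q.2 (e s, true)) (w x) = s ∧
        c.f (q.2 (e s, false)) (w x) = (starRingEnd ℂ) s with hYq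
  have hsub : Y ⊆ Finset.univ.biUnion Yq := by
    intro x hx
    obtain ⟨q, hq⟩ := hmatch x hx
    exact Finset.mem_biUnion.2 ⟨q, Finset.mem_univ q, Finset.mem_filter.2 ⟨hx, hq⟩⟩
  have hcount : ∀ q, (Yq q).card ≤ C q := by
    intro q
    refine H q F hm ι ξ T (hTq q) w₀ (hroot y₀ hy₀ w₀ hw₀) (Yq q) w fun x hx => ?_
    obtain ⟨hxY, e, hes⟩ := Finset.mem_filter.1 hx
    obtain ⟨h2, h3, -, P, hP, s₀, hs₀, hs⟩ := hY x hxY
    have hji : Function.Injective (fun z : {s : ℂ // s ∈ K ∧ f s = ι x} × Bool => (e z.1, z.2)) := by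
      rintro ⟨s, b⟩ ⟨s', b'⟩ h
      simp only [Prod.mk.injEq] at h
      rw [Prod.mk.injEq]
      exact ⟨e.injective h.1, h.2⟩
    have hP' := adm_rename F ι ξ d (T ^ A) (by positivity) _ hji P hP
    refine ⟨?_, ?_, h3, MvPolynomial.rename (fun z : {s : ℂ // s ∈ K ∧ f s = ι x} × Bool => (e z.1, z.2)) P,
      hP'.1, hP'.2,
      Finsupp.mapDomain (fun z : {s : ℂ // s ∈ K ∧ f s = ι x} × Bool => (e z.1, z.2)) s₀, ?_, ?_⟩
    · have h4 : ‖w x - w₀‖ ^ c.e ≤ (T ^ (-(δ / c.e))) ^ c.e := by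
        rw [← Real.rpow_natCast (T ^ (-(δ / c.e))), ← Real.rpow_mul hTp.le]
        have h5 : -(δ / c.e) * (c.e : ℝ) = -δ := by field_simp
        rw [h5]
        exact (hwd x).trans (hYd x hxY y₀ hy₀)
      exact (pow_le_pow_iff_left₀ (norm_nonneg _) (by positivity) c.he.ne').1 h4
    · change a₀ + w x ^ c.e = ι x
      rw [hw, add_sub_cancel]
    · rw [MvPolynomial.coeff_rename_mapDomain _ hji]
      exact hs₀
    · rw [MvPolynomial.coeff_rename_mapDomain _ hji, MvPolynomial.aeval_rename]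
      have h5 : (fun i => c.yr q.2 (some i) (w x)) ∘ (fun z : {s : ℂ // s ∈ K ∧ f s = ι x} × Bool => (e z.1, z.2)) =
          fun z => part z.2 z.1 := by
        funext z
        change ri z.2 (c.f (q.2 (e z.1, true)) (w x)) (c.f (q.2 (e z.1, false)) (w x)) = _
        rw [(hes z.1).1, (hes z.1).2, ri_conj]
      rw [h5]
      refine hs.trans (mul_le_mul_of_nonneg_right ?_ (norm_nonneg _))
      refine Real.rpow_le_rpow_of_exponent_le (by linarith) (neg_le_neg ?_)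
      exact Finset.single_le_sum (fun q _ => hB q) (Finset.mem_univ q)
  calc Y.card ≤ (Finset.univ.biUnion Yq).card := Finset.card_le_card hsub
    _ ≤ ∑ q, (Yq q).card := Finset.card_biUnion_le
    _ ≤ ∑ q, C q := Finset.sum_le_sum fun q _ => hcount q

theorem BadR.mono {g : ℕ} {f : ℂ → ℂ} {K : Set ℂ} {F : Type} [Field F] [NumberField F] {ι : F →+* ℂ}
    {ξ : Fin g → ℂ} {d : ℕ} {H δ δ' : ℝ} {a : ℂ} (hd : δ ≤ δ') (h : BadR f K F ι ξ d H δ a) :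
    BadR f K F ι ξ d H δ' a := by
  obtain ⟨P, hP, s₀, hs₀, hs⟩ := h
  exact ⟨P, hP, s₀, hs₀, hs.trans (mul_le_mul_of_nonneg_right hd (norm_nonneg _))⟩

/-- The general theorem on the real and imaginary parts of the points of a compact set with a real algebraic value. -/
theorem level_real {f : ℂ → ℂ} {U K : Set ℂ} (hU : IsOpen U) (hf : ∀ z ∈ U, AnalyticAt ℂ f z)
    (hnc : ∀ z ∈ U, ¬ ∀ᶠ s in 𝓝 z, f s = f z) (hG : Gen f U) (hK : IsCompact K)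
    (hKU : ∀ s ∈ K, s ∈ U ∧ (starRingEnd ℂ) s ∈ U) (hKi : ∀ s ∈ K, 0 < s.im)
    (hconj : ∀ s ∈ K, f ((starRingEnd ℂ) s) = (starRingEnd ℂ) (f s)) (m g d : ℕ) (A δ : ℝ)
    (hδ : 0 < δ) :
    ∃ (B : ℝ) (C : ℕ) (T₀ : ℝ), 2 ≤ T₀ ∧ 0 ≤ B ∧ ∀ (F : Type) [Field F] [NumberField F], Module.finrank ℚ F ≤ m →
      ∀ (ι : F →+* ℂ) (ξ : Fin g → ℂ) (T : ℝ), T₀ ≤ T → ∀ Y : Finset F,
        (∀ x ∈ Y, (ι x).im = 0 ∧ Y120.HtLe F T x ∧ BadR f K F ι ξ d (T ^ A) (T ^ (-B)) (ι x)) →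
        (∀ x ∈ Y, ∀ y ∈ Y, ‖ι x - ι y‖ ≤ T ^ (-δ)) → Y.card ≤ C := by
  classical
  set K' : Set ℂ := K ∪ (starRingEnd ℂ) '' K with hK'
  have hK'c : IsCompact K' := hK.union (hK.image Complex.continuous_conj)
  have hK'U : K' ⊆ U := by
    rintro s (hs | ⟨s', hs', rfl⟩)
    · exact (hKU s hs).1
    · exact (hKU s' hs').2
  have hKK : ∀ s ∈ K, s ∈ K' ∧ (starRingEnd ℂ) s ∈ K' := fun s hs => ⟨Or.inl hs, Or.inr ⟨s, hs, rfl⟩⟩
  have hc : ∀ a : ℂ, Nonempty (Chart f U K' a) := fun a => exists_chart hU hf hnc hK'c hK'U a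
  let c : ∀ a : ℂ, Chart f U K' a := fun a => (hc a).some
  have hcb := fun a => chart_real (c a) hG hKi hKK m g d A δ hδ
  choose B C T₀ hT₀ hB H using hcb
  have hR : ∀ a, 0 < (c a).r ^ (c a).e := fun a => pow_pos (c a).hr _
  have hcomp : IsCompact (f '' K) := hK.image_of_continuousOn fun z hz => (hf z (hKU z hz).1).continuousAt.continuousWithinAt
  obtain ⟨t, ht, hcov⟩ := hcomp.elim_nhds_subcover (fun a => Metric.ball a ((c a).r ^ (c a).e / 2))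
    (fun a _ => Metric.ball_mem_nhds _ (half_pos (hR a)))
  obtain ⟨ρ, hρ, hle⟩ : ∃ ρ : ℝ, 0 < ρ ∧ ∀ a ∈ t, ρ ≤ (c a).r ^ (c a).e / 2 := by
    rcases t.eq_empty_or_nonempty with h | h
    · exact ⟨1, one_pos, fun a ha => by rw [h] at ha; exact absurd ha (Finset.notMem_empty a)⟩
    · obtain ⟨a₁, ha₁, hmin⟩ := Finset.exists_min_image t (fun a => (c a).r ^ (c a).e / 2) h
      exact ⟨_, half_pos (hR a₁), hmin⟩
  have hS1 : ∀ a ∈ t, B a ≤ ∑ a ∈ t, B a := fun a ha => Finset.single_le_sum (fun a _ => hB a) ha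
  have hS2 : ∀ a ∈ t, C a ≤ ∑ a ∈ t, C a := fun a ha => Finset.single_le_sum (fun a _ => Nat.zero_le _) ha
  have hS3 : ∀ a ∈ t, T₀ a ≤ ∑ a ∈ t, T₀ a := fun a ha =>
    Finset.single_le_sum (fun a _ => by linarith [hT₀ a]) ha
  have hB0 : 0 ≤ ∑ a ∈ t, B a := Finset.sum_nonneg fun a _ => hB a
  have hT00 : 0 ≤ ∑ a ∈ t, T₀ a := Finset.sum_nonneg fun a _ => by linarith [hT₀ a]
  refine ⟨∑ a ∈ t, B a + 1, ∑ a ∈ t, C a, max (2 + ∑ a ∈ t, T₀ a) (ρ⁻¹ ^ (1 / δ)), le_max_of_le_left (by linarith),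
    by linarith, fun F _ _ hm ι ξ T hT Y hY hYd => ?_⟩
  have hT1 : 2 + ∑ a ∈ t, T₀ a ≤ T := (le_max_left _ _).trans hT
  have hT2 : ρ⁻¹ ^ (1 / δ) ≤ T := (le_max_right _ _).trans hT
  have hTp : 0 < T := by linarith
  have hTρ : T ^ (-δ) ≤ ρ := by
    have h1 : ρ⁻¹ ≤ T ^ δ := by
      calc ρ⁻¹ = (ρ⁻¹ ^ (1 / δ)) ^ δ := by
            rw [← Real.rpow_mul (inv_pos.2 hρ).le]
            have : 1 / δ * δ = 1 := by field_simp
            rw [this, Real.rpow_one]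
        _ ≤ T ^ δ := Real.rpow_le_rpow (by positivity) hT2 hδ.le
    rw [Real.rpow_neg hTp.le, inv_le_comm₀ (Real.rpow_pos_of_pos hTp _) hρ]
    exact h1
  rcases Y.eq_empty_or_nonempty with rfl | ⟨y₀, hy₀⟩
  · simp
  have hpos : T ^ (-(∑ a ∈ t, B a + 1)) < 1 := Real.rpow_lt_one_of_one_lt_of_neg (by linarith) (by linarith)
  have hmem : ι y₀ ∈ f '' K := by
    by_contra hcon
    obtain ⟨P, -, s₀, hs₀, hs⟩ := (hY y₀ hy₀).2.2
    have hemp : IsEmpty ({s : ℂ // s ∈ K ∧ f s = ι y₀} × Bool) := ⟨fun s => hcon ⟨s.1, s.1.2.1, s.1.2.2⟩⟩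
    have h1 : s₀ = 0 := Subsingleton.elim _ _
    have h2 : MvPolynomial.aeval (fun z : {s : ℂ // s ∈ K ∧ f s = ι y₀} × Bool => part z.2 z.1) P = P.coeff s₀ := by
      conv_lhs => rw [MvPolynomial.eq_C_of_isEmpty P]
      rw [h1, MvPolynomial.aeval_C]
      rfl
    rw [h2] at hs
    have h3 : 0 < ‖P.coeff s₀‖ := norm_pos_iff.2 hs₀
    have h4 : T ^ (-(∑ a ∈ t, B a + 1)) * ‖P.coeff s₀‖ < 1 * ‖P.coeff s₀‖ := mul_lt_mul_of_pos_right hpos h3
    rw [one_mul] at h4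
    exact absurd hs (not_le.2 h4)
  have h1 := hcov hmem
  rw [Set.mem_iUnion₂] at h1
  obtain ⟨a, ha, hya⟩ := h1
  have hya' : ‖ι y₀ - a‖ < (c a).r ^ (c a).e / 2 := by
    rw [← dist_eq_norm]
    exact hya
  refine (H a F hm ι ξ T ?_ Y (fun x hx => ⟨?_, (hY x hx).2.1, ?_, ?_⟩) hYd).trans (hS2 a ha)
  · have := hS3 a ha
    linarith
  · have h2 := hYd x hx y₀ hy₀
    have h3 := hle a ha
    calc ‖ι x - a‖ = ‖(ι x - ι y₀) + (ι y₀ - a)‖ := by congr 1; ring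
      _ ≤ ‖ι x - ι y₀‖ + ‖ι y₀ - a‖ := norm_add_le _ _
      _ ≤ (c a).r ^ (c a).e := by linarith
  · intro s hs hfs
    rw [hconj s hs, hfs]
    exact Complex.conj_eq_iff_im.2 (hY x hx).1
  · refine (hY x hx).2.2.mono ?_
    refine Real.rpow_le_rpow_of_exponent_le (by linarith) ?_
    have := hS1 a ha
    linarith

end Pool.Agent.H488.Z
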