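import Pool.Agent.H488.Z.RealMain

/-!
# Level sets at real values of a function with a functional equation: the ordinates
-/

set_option autoImplicit false

open Filter Topology NumberField

namespace Pool.Agent.H488.Z

open Pool.Agent.R349.Gen (AdmG)
open MvPolynomial (X C)

/-- the curve of the ordinates, for a pattern `p`, `p'` -/
noncomputable def Chart.ys {f : ℂ → ℂ} {U K : Set ℂ} {a₀ : ℂ} (c : Chart f U K a₀) {n : ℕ} (p p' : Fin n → c.κ)
    (o : Option (Fin n)) (w : ℂ) : ℂ :=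
  o.elim (a₀ + w ^ c.e) fun i => (c.f (p i) w + c.f (p' i) w - 1) / (2 * Complex.I)

theorem Chart.ys_an {f : ℂ → ℂ} {U K : Set ℂ} {a₀ : ℂ} (c : Chart f U K a₀) {n : ℕ} (p p' : Fin n → c.κ)
    (o : Option (Fin n)) (w : ℂ) (hw : w ∈ Metric.closedBall (0 : ℂ) c.r) : AnalyticAt ℂ (c.ys p p' o) w := by
  rcases o with _ | i
  · exact analyticAt_const.add (analyticAt_id.pow _)
  · exact (((c.an _ w hw).add (c.an _ w hw)).sub analyticAt_const).div_const

theorem Chart.ys_locP {f : ℂ → ℂ} {U K : Set ℂ} {a₀ : ℂ} (c : Chart f U K a₀) (hG : Gen f U) {n : ℕ}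
    (p p' : Fin n → c.κ) (hp : Function.Injective p) (hpp : ∀ i j, i ≠ j → p i ≠ p' j) (t : ℂ)
    (ht : t ∈ Metric.closedBall (0 : ℂ) c.r) : LocP (c.ys p p') t := by
  classical
  intro P hP
  -- the substitution
  let sb : Option (Fin n) → MvPolynomial (Option c.κ) ℂ := fun o => o.elim (X none) fun i =>
    C (1 / (2 * Complex.I)) * (X (some (p i)) + X (some (p' i)) - 1)
  let θ : MvPolynomial (Option (Fin n)) ℂ →ₐ[ℂ] MvPolynomial (Option c.κ) ℂ := MvPolynomial.aeval sb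
  let bk : Option c.κ → MvPolynomial (Option (Fin n)) ℂ := fun o => o.elim (X none)
    (Function.extend p (fun i => if p' i = p i then C Complex.I * X (some i) + C (1 / 2)
      else C (2 * Complex.I) * X (some i) + 1) 0)
  let η : MvPolynomial (Option c.κ) ℂ →ₐ[ℂ] MvPolynomial (Option (Fin n)) ℂ := MvPolynomial.aeval bk
  have hbk : ∀ i, bk (some (p i)) = if p' i = p i then C Complex.I * X (some i) + C (1 / 2)
      else C (2 * Complex.I) * X (some i) + 1 := by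
    intro i
    change Function.extend p (fun i => if p' i = p i then C Complex.I * X (some i) + C (1 / 2)
      else C (2 * Complex.I) * X (some i) + 1 : Fin n → MvPolynomial (Option (Fin n)) ℂ) 0 (p i) = _
    rw [hp.extend_apply]
  have hbk' : ∀ i, p' i ≠ p i → bk (some (p' i)) = 0 := by
    intro i hi
    change Function.extend p (fun i => if p' i = p i then C Complex.I * X (some i) + C (1 / 2)
      else C (2 * Complex.I) * X (some i) + 1 : Fin n → MvPolynomial (Option (Fin n)) ℂ) 0 (p' i) = _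
    rw [Function.extend_apply']
    · rfl
    · rintro ⟨j, hj⟩
      by_cases hji : j = i
      · exact hi (by rw [← hj, hji])
      · exact hpp j i hji hj
  have hI : (2 : ℂ) * Complex.I ≠ 0 := by simp
  have hCI : (C (1 / (2 * Complex.I)) * C (2 * Complex.I) : MvPolynomial (Option (Fin n)) ℂ) = 1 := by
    rw [← C.map_mul, one_div_mul_cancel hI, C.map_one]
  have hcomp : η.comp θ = AlgHom.id ℂ _ := by
    apply MvPolynomial.algHom_ext
    rintro (_ | i)
    · simp only [AlgHom.comp_apply, θ, η, MvPolynomial.aeval_X, AlgHom.id_apply, sb, bk, Option.elim_none]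
    · have h2 : η (sb (some i)) = X (some i) := by
        simp only [sb, Option.elim_some, map_mul, map_sub, map_add, map_one, η, MvPolynomial.aeval_X,
          MvPolynomial.algHom_C, MvPolynomial.algebraMap_eq]
        by_cases hi : p' i = p i
        · rw [hi, hbk, if_pos hi]
          have h3 : (C Complex.I * X (some i) + C (1 / 2) + (C Complex.I * X (some i) + C (1 / 2)) - 1 :
              MvPolynomial (Option (Fin n)) ℂ) = C (2 * Complex.I) * X (some i) := by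
            have h4 : (C (1 / 2) + C (1 / 2) : MvPolynomial (Option (Fin n)) ℂ) = 1 := by
              rw [← C.map_add]
              norm_num
            have h5 : (C (2 * Complex.I) : MvPolynomial (Option (Fin n)) ℂ) = C Complex.I + C Complex.I := by
              rw [← C.map_add]
              congr 1
              ring
            rw [h5]
            linear_combination h4
          rw [h3, ← mul_assoc, hCI, one_mul]
        · rw [hbk, if_neg hi, hbk' i hi, add_zero, add_sub_cancel_right, ← mul_assoc, hCI, one_mul]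
      simpa [AlgHom.comp_apply, θ, MvPolynomial.aeval_X] using h2
  have h1 : θ P = 0 := by
    refine c.locP hG t ht (θ P) ?_
    filter_upwards [hP] with w hw
    have h2 : MvPolynomial.eval (fun o => c.y o w) (θ P) = MvPolynomial.eval (fun o => c.ys p p' o w) P := by
      have h3 : (MvPolynomial.eval (fun o => c.y o w)).comp (θ : MvPolynomial (Option (Fin n)) ℂ →+* _) =
          MvPolynomial.eval (fun o => c.ys p p' o w) := by
        apply MvPolynomial.ringHom_ext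
        · intro r
          simp [θ]
        · rintro (_ | i)
          · simp [θ, sb, Chart.y, Chart.ys]
          · simp only [RingHom.comp_apply, RingHom.coe_coe, θ, MvPolynomial.aeval_X, sb, Option.elim_some,
              map_mul, map_sub, map_add, map_one, MvPolynomial.eval_C, MvPolynomial.eval_X, Chart.y, Chart.ys]
            ring
      exact RingHom.congr_fun h3 P
    rw [h2]
    exact hw
  have h2 : η (θ P) = P := DFunLike.congr_fun hcomp P
  rw [← h2, h1, map_zero]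

/-- the ordinates of the points of `K` with the value `a` -/
abbrev OrdK (f : ℂ → ℂ) (K : Set ℂ) (a : ℂ) : Type := {γ : ℝ // ∃ s ∈ K, f s = a ∧ s.im = γ}

/-- an approximate relation between the ordinates of the points of `K` with the value `a` -/
def BadO {g : ℕ} (f : ℂ → ℂ) (K : Set ℂ) (F : Type) [Field F] [NumberField F] (ι : F →+* ℂ) (ξ : Fin g → ℂ) (d : ℕ)
    (H δ : ℝ) (a : ℂ) : Prop :=
  ∃ P : MvPolynomial (OrdK f K a) ℂ, AdmG F ι ξ d H P ∧
    ∃ s₀, P.coeff s₀ ≠ 0 ∧ ‖MvPolynomial.aeval (fun γ : OrdK f K a => ((γ : ℝ) : ℂ)) P‖ ≤ δ * ‖P.coeff s₀‖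

/-- the reflection in the critical line -/
noncomputable def refl (s : ℂ) : ℂ := 1 - (starRingEnd ℂ) s

theorem refl_im (s : ℂ) : (refl s).im = s.im := by
  unfold refl
  simp

theorem im_eq (s : ℂ) : ((s.im : ℝ) : ℂ) = (s + refl s - 1) / (2 * Complex.I) := by
  unfold refl
  have h1 : s + (1 - (starRingEnd ℂ) s) - 1 = s - (starRingEnd ℂ) s := by ring
  have : (2 : ℂ) * Complex.I ≠ 0 := by simp
  rw [h1, Complex.sub_conj]
  push_cast
  field_simp

theorem continuous_refl : Continuous refl := continuous_const.sub Complex.continuous_conj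

theorem chart_sym {f : ℂ → ℂ} {U K K' : Set ℂ} {a₀ : ℂ} (c : Chart f U K' a₀) (hG : Gen f U)
    (hKK : ∀ s ∈ K, s ∈ K' ∧ refl s ∈ K') (m g d : ℕ) (A δ : ℝ) (hδ : 0 < δ) :
    ∃ (B : ℝ) (C : ℕ) (T₀ : ℝ), 2 ≤ T₀ ∧ 0 ≤ B ∧ ∀ (F : Type) [Field F] [NumberField F], Module.finrank ℚ F ≤ m →
      ∀ (ι : F →+* ℂ) (ξ : Fin g → ℂ) (T : ℝ), T₀ ≤ T → ∀ Y : Finset F,
        (∀ x ∈ Y, ‖ι x - a₀‖ ≤ c.r ^ c.e ∧ Y120.HtLe F T x ∧ (∀ s ∈ K, f s = ι x → f (refl s) = ι x) ∧
          BadO f K F ι ξ d (T ^ A) (T ^ (-B)) (ι x)) →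
        (∀ x ∈ Y, ∀ y ∈ Y, ‖ι x - ι y‖ ≤ T ^ (-δ)) → Y.card ≤ C := by
  classical
  have := c.fin
  have := c.dec
  have he : (0 : ℝ) < c.e := by exact_mod_cast c.he
  have hcv := fun q : Σ n : Fin (Fintype.card c.κ + 1), {p : (Fin n → c.κ) × (Fin n → c.κ) //
      Function.Injective p.1 ∧ ∀ i j, i ≠ j → p.1 i ≠ p.2 j} =>
    curveNF m g d (c.ys q.2.1.1 q.2.1.2) (Metric.closedBall (0 : ℂ) c.r) (isCompact_closedBall _ _)
      (fun i t ht => c.ys_an q.2.1.1 q.2.1.2 i t ht)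
      (fun t ht => c.ys_locP hG q.2.1.1 q.2.1.2 q.2.2.1 q.2.2.2 t ht) A (δ / c.e) (by positivity)
  choose B C T₀ hT₀ hB H using hcv
  refine ⟨∑ q, B q, ∑ q, C q, 2 + ∑ q, T₀ q, ?_, Finset.sum_nonneg fun q _ => hB q,
    fun F _ _ hm ι ξ T hT Y hY hYd => ?_⟩
  · have : 0 ≤ ∑ q, T₀ q := Finset.sum_nonneg fun q _ => by linarith [hT₀ q]
    linarith
  have hTq : ∀ q, T₀ q ≤ T := by
    intro q
    have := Finset.single_le_sum (f := T₀) (fun q _ => by linarith [hT₀ q]) (Finset.mem_univ q)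
    linarith
  have hT2 : 2 ≤ T := by
    have : 0 ≤ ∑ q, T₀ q := Finset.sum_nonneg fun q _ => by linarith [hT₀ q]
    linarith
  have hTp : 0 < T := by linarith
  rcases Y.eq_empty_or_nonempty with rfl | ⟨y₀, hy₀⟩
  · simp
  have hroot : ∀ x ∈ Y, ∀ w : ℂ, w ^ c.e = ι x - a₀ → w ∈ Metric.closedBall (0 : ℂ) c.r := by
    intro x hx w hw
    have h1 := (hY x hx).1
    rw [← hw, norm_pow] at h1
    rw [Metric.mem_closedBall, dist_zero_right]
    exact (pow_le_pow_iff_left₀ (norm_nonneg _) c.hr.le c.he.ne').1 h1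
  obtain ⟨w₀, hw₀⟩ := IsAlgClosed.exists_pow_nat_eq (ι y₀ - a₀) c.he
  have h1 : ∀ x : F, ∃ w : ℂ, w ^ c.e = ι x - a₀ ∧ ‖w - w₀‖ ^ c.e ≤ ‖ι x - ι y₀‖ := by
    intro x
    obtain ⟨w, hw⟩ := IsAlgClosed.exists_pow_nat_eq (ι x - a₀) c.he
    obtain ⟨ζ, hζ, hle⟩ := near_root c.e c.he w w₀
    refine ⟨ζ * w, by rw [mul_pow, hζ, one_mul, hw], hle.trans (le_of_eq ?_)⟩
    rw [hw, hw₀]
    congr 1
    ring
  choose w hw hwd using h1
  -- the patterns
  have hmatch : ∀ x ∈ Y, ∃ q : Σ n : Fin (Fintype.card c.κ + 1), {p : (Fin n → c.κ) × (Fin n → c.κ) //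
      Function.Injective p.1 ∧ ∀ i j, i ≠ j → p.1 i ≠ p.2 j},
      ∃ e : OrdK f K (ι x) ≃ Fin q.1, ∀ γ, c.ys q.2.1.1 q.2.1.2 (some (e γ)) (w x) = ((γ : ℝ) : ℂ) := by
    intro x hx
    have hwb := hroot x hx (w x) (hw x)
    have hS : ∀ γ : OrdK f K (ι x), ∃ s ∈ K, f s = ι x ∧ s.im = γ := fun γ => γ.2
    choose S hSK hSf hSi using hS
    have hcov1 : ∀ γ, ∃ i, c.f i (w x) = S γ := fun γ =>
      c.cov _ (hKK _ (hSK γ)).1 (w x) hwb (by rw [hSf, hw, add_sub_cancel])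
    have hcov2 : ∀ γ, ∃ i, c.f i (w x) = refl (S γ) := fun γ =>
      c.cov _ (hKK _ (hSK γ)).2 (w x) hwb (by rw [(hY x hx).2.2.1 _ (hSK γ) (hSf γ), hw, add_sub_cancel])
    choose j1 hj1 using hcov1
    choose j2 hj2 using hcov2
    have hi1 : Function.Injective j1 := by
      intro γ γ' h
      apply Subtype.ext
      rw [← hSi γ, ← hSi γ', ← hj1 γ, ← hj1 γ', h]
    have hi3 : ∀ γ γ', γ ≠ γ' → j1 γ ≠ j2 γ' := by
      intro γ γ' hne h
      apply hne
      apply Subtype.ext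
      rw [← hSi γ, ← hSi γ', ← refl_im (S γ'), ← hj1 γ, ← hj2 γ', h]
    have hfin : Fintype (OrdK f K (ι x)) := Fintype.ofInjective j1 hi1
    have hcard : Fintype.card (OrdK f K (ι x)) < Fintype.card c.κ + 1 :=
      Nat.lt_succ_of_le (Fintype.card_le_of_injective j1 hi1)
    let e := Fintype.equivFin (OrdK f K (ι x))
    refine ⟨⟨⟨_, hcard⟩, ⟨(fun z => j1 (e.symm z), fun z => j2 (e.symm z)), hi1.comp e.symm.injective,
      fun i j hij => hi3 _ _ fun h => hij (e.symm.injective h)⟩⟩, e, fun γ => ?_⟩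
    change (c.f (j1 (e.symm (e γ))) (w x) + c.f (j2 (e.symm (e γ))) (w x) - 1) / (2 * Complex.I) = _
    rw [e.symm_apply_apply, hj1, hj2, ← im_eq, hSi]
  set Yq : (Σ n : Fin (Fintype.card c.κ + 1), {p : (Fin n → c.κ) × (Fin n → c.κ) //
      Function.Injective p.1 ∧ ∀ i j, i ≠ j → p.1 i ≠ p.2 j}) → Finset F := fun q => Y.filter fun x =>
    ∃ e : OrdK f K (ι x) ≃ Fin q.1, ∀ γ, c.ys q.2.1.1 q.2.1.2 (some (e γ)) (w x) = ((γ : ℝ) : ℂ) with hYq
  have hsub : Y ⊆ Finset.univ.biUnion Yq := by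
    intro x hx
    obtain ⟨q, hq⟩ := hmatch x hx
    exact Finset.mem_biUnion.2 ⟨q, Finset.mem_univ q, Finset.mem_filter.2 ⟨hx, hq⟩⟩
  have hcount : ∀ q, (Yq q).card ≤ C q := by
    intro q
    refine H q F hm ι ξ T (hTq q) w₀ (hroot y₀ hy₀ w₀ hw₀) (Yq q) w fun x hx => ?_
    obtain ⟨hxY, e, hes⟩ := Finset.mem_filter.1 hx
    obtain ⟨h2, h3, -, P, hP, s₀, hs₀, hs⟩ := hY x hxY
    have hji : Function.Injective e := e.injective
    have hP' := adm_rename F ι ξ d (T ^ A) (by positivity) _ hji P hP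
    refine ⟨?_, ?_, h3, MvPolynomial.rename e P, hP'.1, hP'.2, Finsupp.mapDomain e s₀, ?_, ?_⟩
    · have h4 : ‖w x - w₀‖ ^ c.e ≤ (T ^ (-(δ / c.e))) ^ c.e := by
        rw [← Real.rpow_natCast (T ^ (-(δ / c.e))), ← Real.rpow_mul hTp.le]
        have h5 : -(δ / c.e) * (c.e : ℝ) = -δ := by field_simp
        rw [h5]
        exact (hwd x).trans (hYd x hxY y₀ hy₀)
      exact (pow_le_pow_iff_left₀ (norm_nonneg _) (by positivity) c.he.ne').1 h4
    · change a₀ + w x ^ c.e = ι x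
      rw [hw, add_sub_cancel]
    · rw [MvPolynomial.coeff_rename_mapDomain _ hji]
      exact hs₀
    · rw [MvPolynomial.coeff_rename_mapDomain _ hji, MvPolynomial.aeval_rename]
      have h5 : (fun i => c.ys q.2.1.1 q.2.1.2 (some i) (w x)) ∘ e = fun γ : OrdK f K (ι x) => ((γ : ℝ) : ℂ) := by
        funext γ
        exact hes γ
      rw [h5]
      refine hs.trans (mul_le_mul_of_nonneg_right ?_ (norm_nonneg _))
      refine Real.rpow_le_rpow_of_exponent_le (by linarith) (neg_le_neg ?_)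
      exact Finset.single_le_sum (fun q _ => hB q) (Finset.mem_univ q)
  calc Y.card ≤ (Finset.univ.biUnion Yq).card := Finset.card_le_card hsub
    _ ≤ ∑ q, (Yq q).card := Finset.card_biUnion_le
    _ ≤ ∑ q, C q := Finset.sum_le_sum fun q _ => hcount q

theorem BadO.mono {g : ℕ} {f : ℂ → ℂ} {K : Set ℂ} {F : Type} [Field F] [NumberField F] {ι : F →+* ℂ}
    {ξ : Fin g → ℂ} {d : ℕ} {H δ δ' : ℝ} {a : ℂ} (hd : δ ≤ δ') (h : BadO f K F ι ξ d H δ a) :
    BadO f K F ι ξ d H δ' a := by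
  obtain ⟨P, hP, s₀, hs₀, hs⟩ := h
  exact ⟨P, hP, s₀, hs₀, hs.trans (mul_le_mul_of_nonneg_right hd (norm_nonneg _))⟩

/-- The general theorem on the ordinates of the points of a compact set with a real algebraic value. -/
theorem level_sym {f : ℂ → ℂ} {U K : Set ℂ} (hU : IsOpen U) (hf : ∀ z ∈ U, AnalyticAt ℂ f z)
    (hnc : ∀ z ∈ U, ¬ ∀ᶠ s in 𝓝 z, f s = f z) (hG : Gen f U) (hK : IsCompact K)
    (hKU : ∀ s ∈ K, s ∈ U ∧ refl s ∈ U)
    (hconj : ∀ s ∈ K, f (refl s) = (starRingEnd ℂ) (f s)) (m g d : ℕ) (A δ : ℝ)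
    (hδ : 0 < δ) :
    ∃ (B : ℝ) (C : ℕ) (T₀ : ℝ), 2 ≤ T₀ ∧ 0 ≤ B ∧ ∀ (F : Type) [Field F] [NumberField F], Module.finrank ℚ F ≤ m →
      ∀ (ι : F →+* ℂ) (ξ : Fin g → ℂ) (T : ℝ), T₀ ≤ T → ∀ Y : Finset F,
        (∀ x ∈ Y, (ι x).im = 0 ∧ Y120.HtLe F T x ∧ BadO f K F ι ξ d (T ^ A) (T ^ (-B)) (ι x)) →
        (∀ x ∈ Y, ∀ y ∈ Y, ‖ι x - ι y‖ ≤ T ^ (-δ)) → Y.card ≤ C := by
  classical
  set K' : Set ℂ := K ∪ refl '' K with hK'
  have hK'c : IsCompact K' := hK.union (hK.image continuous_refl)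
  have hK'U : K' ⊆ U := by
    rintro s (hs | ⟨s', hs', rfl⟩)
    · exact (hKU s hs).1
    · exact (hKU s' hs').2
  have hKK : ∀ s ∈ K, s ∈ K' ∧ refl s ∈ K' := fun s hs => ⟨Or.inl hs, Or.inr ⟨s, hs, rfl⟩⟩
  have hc : ∀ a : ℂ, Nonempty (Chart f U K' a) := fun a => exists_chart hU hf hnc hK'c hK'U a
  let c : ∀ a : ℂ, Chart f U K' a := fun a => (hc a).some
  have hcb := fun a => chart_sym (c a) hG hKK m g d A δ hδ
  choose B C T₀ hT₀ hB H using hcb
  have hR : ∀ a, 0 < (c a).r ^ (c a).e := fun a => pow_pos (c a).hr _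
  have hcomp : IsCompact (f '' K) := hK.image_of_continuousOn fun z hz => (hf z (hKU z hz).1).continuousAt.continuousWithinAt
  obtain ⟨t, ht, hcov⟩ := hcomp.elim_nhds_subcover (fun a => Metric.ball a ((c a).r ^ (c a).e / 2))
    (fun a _ => Metric.ball_mem_nhds _ (half_pos (hR a)))
  obtain ⟨ρ, hρ, hle⟩ : ∃ ρ : ℝ, 0 < ρ ∧ ∀ a ∈ t, ρ ≤ (c a).r ^ (c a).e / 2 := by
    rcases t.eq_empty_or_nonempty with h | h
    · exact ⟨1, one_pos, fun a ha => by rw [h] at ha; exact absurd ha (Finset.notMem_empty a)⟩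
    · obtain ⟨a₁, ha₁, hmin⟩ := Finset.exists_min_image t (fun a => (c a).r ^ (c a).e / 2) h
      exact ⟨_, half_pos (hR a₁), hmin⟩
  have hS1 : ∀ a ∈ t, B a ≤ ∑ a ∈ t, B a := fun a ha => Finset.single_le_sum (fun a _ => hB a) ha
  have hS2 : ∀ a ∈ t, C a ≤ ∑ a ∈ t, C a := fun a ha => Finset.single_le_sum (fun a _ => Nat.zero_le _) ha
  have hS3 : ∀ a ∈ t, T₀ a ≤ ∑ a ∈ t, T₀ a := fun a ha =>
    Finset.single_le_sum (fun a _ => by linarith [hT₀ a]) ha
  have hB0 : 0 ≤ ∑ a ∈ t, B a := Finset.sum_nonneg fun a _ => hB a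
  have hT00 : 0 ≤ ∑ a ∈ t, T₀ a := Finset.sum_nonneg fun a _ => by linarith [hT₀ a]
  refine ⟨∑ a ∈ t, B a + 1, ∑ a ∈ t, C a, max (2 + ∑ a ∈ t, T₀ a) (ρ⁻¹ ^ (1 / δ)), le_max_of_le_left (by linarith),
    by linarith, fun F _ _ hm ι ξ T hT Y hY hYd => ?_⟩
  have hT1 : 2 + ∑ a ∈ t, T₀ a ≤ T := (le_max_left _ _).trans hT
  have hT2 : ρ⁻¹ ^ (1 / δ) ≤ T := (le_max_right _ _).trans hT
  have hTp : 0 < T := by linarith
  have hTρ : T ^ (-δ) ≤ ρ := by
    have h1 : ρ⁻¹ ≤ T ^ δ := by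
      calc ρ⁻¹ = (ρ⁻¹ ^ (1 / δ)) ^ δ := by
            rw [← Real.rpow_mul (inv_pos.2 hρ).le]
            have : 1 / δ * δ = 1 := by field_simp
            rw [this, Real.rpow_one]
        _ ≤ T ^ δ := Real.rpow_le_rpow (by positivity) hT2 hδ.le
    rw [Real.rpow_neg hTp.le, inv_le_comm₀ (Real.rpow_pos_of_pos hTp _) hρ]
    exact h1
  rcases Y.eq_empty_or_nonempty with rfl | ⟨y₀, hy₀⟩
  · simp
  have hpos : T ^ (-(∑ a ∈ t, B a + 1)) < 1 := Real.rpow_lt_one_of_one_lt_of_neg (by linarith) (by linarith)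
  have hmem : ι y₀ ∈ f '' K := by
    by_contra hcon
    obtain ⟨P, -, s₀, hs₀, hs⟩ := (hY y₀ hy₀).2.2
    have hemp : IsEmpty (OrdK f K (ι y₀)) := ⟨fun γ => hcon (by obtain ⟨s, h1, h2, -⟩ := γ.2; exact ⟨s, h1, h2⟩)⟩
    have h1 : s₀ = 0 := Subsingleton.elim _ _
    have h2 : MvPolynomial.aeval (fun γ : OrdK f K (ι y₀) => ((γ : ℝ) : ℂ)) P = P.coeff s₀ := by
      conv_lhs => rw [MvPolynomial.eq_C_of_isEmpty P]
      rw [h1, MvPolynomial.aeval_C]
      rfl
    rw [h2] at hs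
    have h3 : 0 < ‖P.coeff s₀‖ := norm_pos_iff.2 hs₀
    have h4 : T ^ (-(∑ a ∈ t, B a + 1)) * ‖P.coeff s₀‖ < 1 * ‖P.coeff s₀‖ := mul_lt_mul_of_pos_right hpos h3
    rw [one_mul] at h4
    exact absurd hs (not_le.2 h4)
  have h1 := hcov hmem
  rw [Set.mem_iUnion₂] at h1
  obtain ⟨a, ha, hya⟩ := h1
  have hya' : ‖ι y₀ - a‖ < (c a).r ^ (c a).e / 2 := by
    rw [← dist_eq_norm]
    exact hya
  refine (H a F hm ι ξ T ?_ Y (fun x hx => ⟨?_, (hY x hx).2.1, ?_, ?_⟩) hYd).trans (hS2 a ha)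
  · have := hS3 a ha
    linarith
  · have h2 := hYd x hx y₀ hy₀
    have h3 := hle a ha
    calc ‖ι x - a‖ = ‖(ι x - ι y₀) + (ι y₀ - a)‖ := by congr 1; ring
      _ ≤ ‖ι x - ι y₀‖ + ‖ι y₀ - a‖ := norm_add_le _ _
      _ ≤ (c a).r ^ (c a).e := by linarith
  · intro s hs hfs
    rw [hconj s hs, hfs]
    exact Complex.conj_eq_iff_im.2 (hY x hx).1
  · refine (hY x hx).2.2.mono ?_
    refine Real.rpow_le_rpow_of_exponent_le (by linarith) ?_
    have := hS1 a ha
    linarith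

end Pool.Agent.H488.Z
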