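import Pool.Agent.H488.Z.SymLev
import Pool.Graph.R_pool_sql_team_seeded_1acbe0a2.Y922.AP.Fin

/-!
# The Riemann xi function: the hypotheses of the general theorems
-/

set_option autoImplicit false

open Filter Topology NumberField

namespace Pool.Agent.H488.Z

open Pool.Agent.Y922.AP (xi)

/-- the upper half-plane -/
def Up : Set ℂ := {s | 0 < s.im}

theorem isOpen_up : IsOpen Up := isOpen_lt continuous_const Complex.continuous_im

theorem xi_gen : Gen xi Up := by
  intro K hK
  obtain ⟨E, hE, h1, -⟩ := Pool.Agent.Y922.AP.final K hK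
  refine ⟨E, hE, fun a ha n s hs hsa => ?_⟩
  refine (Pool.Agent.Y388.AP.t_TOW K a (Fin n) s).mpr ⟨(h1 a ha).1, (h1 a ha).2 n s (fun i => (hsa i).2) fun i j hij => ?_⟩
  refine ⟨fun h => hij (hs h), fun h => ?_⟩
  have h2 := congrArg Complex.im h
  have h3 : 0 < (s i).im := (hsa i).1
  have h4 : 0 < (s j).im := (hsa j).1
  simp only [Complex.add_im, Complex.one_im] at h2
  linarith

theorem xi_diff : Differentiable ℂ xi := Pool.Agent.Y907.AP.xi_diff

theorem xi_refl (s : ℂ) : xi (refl s) = (starRingEnd ℂ) (xi s) := by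
  unfold refl
  rw [Pool.Agent.Y907.AP.xi_sub, Pool.Agent.Y907.AP.xi_conj]

theorem xi_two : xi 2 = (Real.pi : ℂ) / 6 := by
  have h1 : xi 2 = (2 : ℂ) * (2 - 1) * completedRiemannZeta 2 / 2 := by
    rw [xi, completedRiemannZeta_eq]
    norm_num
    ring
  have h2 := riemannZeta_def_of_ne_zero (two_ne_zero (α := ℂ))
  have h3 : Complex.Gammaℝ 2 = (Real.pi : ℂ)⁻¹ := by
    rw [Complex.Gammaℝ_def]
    have : (-(2 : ℂ) / 2) = -1 := by norm_num
    rw [this, Complex.cpow_neg_one]
    have : ((2 : ℂ) / 2) = 1 := by norm_num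
    rw [this, Complex.Gamma_one, mul_one]
  have hpi : (Real.pi : ℂ) ≠ 0 := by exact_mod_cast Real.pi_ne_zero
  rw [riemannZeta_two, h3, eq_div_iff (inv_ne_zero hpi)] at h2
  rw [h1, ← h2]
  field_simp
  norm_num

theorem xi_nc : ∀ z ∈ Up, ¬ ∀ᶠ s in 𝓝 z, xi s = xi z := by
  intro z _ h
  have h1 : AnalyticOnNhd ℂ (fun s => xi s - xi z) Set.univ := fun s _ => (xi_diff.analyticAt s).sub analyticAt_const
  have h2 := h1.eqOn_zero_of_preconnected_of_eventuallyEq_zero isPreconnected_univ (Set.mem_univ z)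
    (by filter_upwards [h] with s hs; rw [hs, sub_self]; rfl)
  have h3 : xi 2 = xi z := sub_eq_zero.1 (h2 (Set.mem_univ 2))
  have h4 : xi 0 = xi z := sub_eq_zero.1 (h2 (Set.mem_univ 0))
  have h5 : xi 0 = 1 / 2 := by simp [xi]
  rw [← h3, h5, xi_two] at h4
  have h6 : (1 / 2 : ℝ) = Real.pi / 6 := by
    apply Complex.ofReal_injective
    push_cast
    exact h4
  have := Real.pi_gt_three
  linarith

end Pool.Agent.H488.Z
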