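import Pool.Agent.H488.Z.RealMain
import Pool.Graph.R_pool_sql_team_seeded_c8625f6e.K4H52.AP.Main
import Pool.Graph.R_pool_sql_team_seeded_c8625f6e.K4H52.AP.Countable2

/-!
# The Riemann zeta function: the hypotheses of the general theorems
-/

set_option autoImplicit false

open Filter Topology NumberField

namespace Pool.Agent.H488.Z

theorem zeta_gen : Gen riemannZeta {1}ᶜ := by
  intro K hK
  have hKc : (K : Set ℂ).Countable := Set.countable_coe_iff.1 hK
  refine ⟨_, Pool.Agent.K4H52.AP.countable_exceptions2 Pool.Agent.K4H52.AP.thmA2_main K hKc, fun a ha n s hs hsa => ?_⟩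
  rw [Set.mem_setOf_eq, not_not] at ha
  let j : Option (Fin n) → Option {s : ℂ // s ≠ 1 ∧ riemannZeta s = a} := Option.map fun i => ⟨s i, hsa i⟩
  have hj : Function.Injective j := Option.map_injective fun i i' h => hs (Subtype.ext_iff.1 h)
  have h1 := ha.comp j hj
  have h2 : ((fun o : Option {s : ℂ // s ≠ 1 ∧ riemannZeta s = a} => (o.elim a (fun s => (s : ℂ)) : ℂ)) ∘ j) =
      fun o : Option (Fin n) => o.elim a s := by
    funext o
    rcases o with _ | i <;> rfl
  rw [← h2]
  exact h1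

theorem zeta_nc : ∀ z ∈ ({1}ᶜ : Set ℂ), ¬ ∀ᶠ s in 𝓝 z, riemannZeta s = riemannZeta z := by
  intro z hz h
  obtain ⟨s, hs1, hs2⟩ := Pool.Agent.K4H52.AP.exists_large ‖riemannZeta z‖
  have h1 : AnalyticOnNhd ℂ (fun s => riemannZeta s - riemannZeta z) {1}ᶜ :=
    fun s hs => (Pool.Agent.K4H52.AP.an_zeta hs).sub analyticAt_const
  have h2 := h1.eqOn_zero_of_preconnected_of_eventuallyEq_zero Pool.Agent.K4H52.AP.conn_compl hz
    (by filter_upwards [h] with s hs; rw [hs, sub_self]; rfl) hs1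
  have h3 : riemannZeta s = riemannZeta z := sub_eq_zero.1 h2
  rw [h3] at hs2
  exact lt_irrefl _ hs2

theorem zeta_an : ∀ z ∈ ({1}ᶜ : Set ℂ), AnalyticAt ℂ riemannZeta z := fun _ hz => Pool.Agent.K4H52.AP.an_zeta hz

theorem zeta_conj (s : ℂ) : riemannZeta ((starRingEnd ℂ) s) = (starRingEnd ℂ) (riemannZeta s) := riemannZeta_conj s

end Pool.Agent.H488.Z
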